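import Pool.Agent.Y649.ETR.Stm

namespace Pool.Agent.Y649.ETR

open Finset Matrix Pool.Agent.Results.MP_44674b_co.WreathExact

open scoped ComplexOrder

namespace Col

section

variable {X : Type} [Fintype X] [DecidableEq X]

/-- the slice of a tensor -/
def slice (G : X → X → X → ℂ) (z : X) : Matrix X X ℂ := fun x y => G x y z

/-- the diagonal matrix of the neighbourhood -/
def dg (S : SymScheme X 2) (u : X) : Matrix X X ℂ :=
  Matrix.diagonal fun x => if S.c u x = 1 then (1 : ℂ) else 0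

lemma bm_symm {S : SymScheme X 2} {M : Matrix X X ℂ} (hM : M ∈ boseMesner S.c) (x y : X) :
    M x y = M y x := by
  obtain ⟨φ, hφ⟩ := bm_iff.mp hM
  rw [hφ, hφ, S.symm]

lemma scal (h_adj : S_EIGADJ) {S : SymScheme X 2} {E F : Matrix X X ℂ} (hE : IsEig S E F)
    {M : Matrix X X ℂ} (hM : M ∈ boseMesner S.c) : ∃ b : ℂ, E * M = b • E ∧ M * E = b • E := by
  obtain ⟨a, b, e, rfl⟩ := (h_adj X S E F hE).1 M hM
  refine ⟨b, ?_, ?_⟩
  · rw [mul_add, mul_add, mul_smul_comm, mul_smul_comm, mul_smul_comm, hE.k1, hE.sq1, hE.m12]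
    simp
  · rw [add_mul, add_mul, smul_mul_assoc, smul_mul_assoc, smul_mul_assoc, hE.j1, hE.sq1, hE.m21]
    simp

lemma comp (h_adj : S_EIGADJ) {S : SymScheme X 2} {E F : Matrix X X ℂ} (hE : IsEig S E F)
    {G : X → X → X → ℂ} (hG : G ∈ WStar S.c) :
    ∃ Φ ∈ boseMesner S.c, ∀ z, E * slice G z * E = E * Matrix.diagonal (Φ z) * E := by
  induction hG using Submodule.span_induction with
  | zero =>
    refine ⟨0, Submodule.zero_mem _, fun z => ?_⟩
    have h1 : slice (0 : X → X → X → ℂ) z = 0 := rfl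
    have h2 : Matrix.diagonal ((0 : Matrix X X ℂ) z) = 0 := by
      ext i j; simp [Matrix.diagonal_apply]
    rw [h1, h2]
  | add a b _ _ ha hb =>
    obtain ⟨Φ, hΦ, h1⟩ := ha
    obtain ⟨Ψ, hΨ, h2⟩ := hb
    refine ⟨Φ + Ψ, Submodule.add_mem _ hΦ hΨ, fun z => ?_⟩
    have h3 : slice (a + b) z = slice a z + slice b z := rfl
    have h4 : Matrix.diagonal ((Φ + Ψ) z) = Matrix.diagonal (Φ z) + Matrix.diagonal (Ψ z) := by
      ext i j
      by_cases h : i = j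
      · subst h; simp
      · simp [h]
    rw [h3, h4, mul_add, add_mul, mul_add, add_mul, h1, h2]
  | smul r a _ ha =>
    obtain ⟨Φ, hΦ, h1⟩ := ha
    refine ⟨r • Φ, Submodule.smul_mem _ _ hΦ, fun z => ?_⟩
    have h3 : slice (r • a) z = r • slice a z := rfl
    have h4 : Matrix.diagonal ((r • Φ) z) = r • Matrix.diagonal (Φ z) := by
      ext i j
      by_cases h : i = j
      · subst h; simp
      · simp [h]
    rw [h3, h4, mul_smul_comm, smul_mul_assoc, mul_smul_comm, smul_mul_assoc, h1]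
  | mem a ha =>
    obtain ⟨L, hL, M, hM, N, hN, rfl⟩ := ha
    obtain ⟨l, hl, -⟩ := scal h_adj hE hL
    obtain ⟨m, -, hm⟩ := scal h_adj hE hM
    refine ⟨(l * m) • N, Submodule.smul_mem _ _ hN, fun z => ?_⟩
    have h3 : slice (Star L M N) z = L * Matrix.diagonal (N z) * M := by
      ext x y
      rw [Matrix.mul_apply]
      simp only [Matrix.mul_diagonal, slice, Pool.Agent.Results.MP_44674b_co.WreathExact.Star]
      refine Finset.sum_congr rfl fun t _ => ?_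
      rw [bm_symm hM y t]
      ring
    have h4 : Matrix.diagonal (((l * m) • N) z) = (l * m) • Matrix.diagonal (N z) := by
      ext i j
      by_cases h : i = j
      · subst h; simp
      · simp [h]
    calc E * slice (Star L M N) z * E = (E * L) * Matrix.diagonal (N z) * (M * E) := by
          rw [h3]; simp only [mul_assoc]
      _ = E * Matrix.diagonal (((l * m) • N) z) * E := by
          rw [hl, hm, h4, smul_mul_assoc, smul_mul_assoc, mul_smul_comm, smul_smul,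
            mul_smul_comm, smul_mul_assoc]

lemma slice_dg (S : SymScheme X 2) (F : Matrix X X ℂ) (u : X) :
    slice (Delta (adj S.c 1) F (adj S.c 1)) u = dg S u * F * dg S u := by
  ext x y
  simp only [slice, Delta, adj, dg, Matrix.mul_diagonal, Matrix.diagonal_mul]
  rw [S.symm x u, S.symm y u]

end

section

variable {X : Type} [Fintype X] [DecidableEq X] {S : SymScheme X 2} {E F : Matrix X X ℂ}

lemma jn_zero (hE : IsEig S E F) {t : X → ℂ} (ht : E *ᵥ t = t) : Jn X *ᵥ t = 0 := by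
  rw [← ht, Matrix.mulVec_mulVec, hE.j1, Matrix.zero_mulVec]

lemma f_zero (hE : IsEig S E F) {t : X → ℂ} (ht : E *ᵥ t = t) : F *ᵥ t = 0 := by
  rw [← ht, Matrix.mulVec_mulVec, hE.m21, Matrix.zero_mulVec]

lemma sum_dg (u : X) (t : X → ℂ) : ∑ y, (dg S u *ᵥ t) y = (adj S.c 1 *ᵥ t) u := by
  simp only [Matrix.mulVec, dotProduct, dg, adj]
  refine Finset.sum_congr rfl fun y _ => ?_
  rw [Finset.sum_eq_single y]
  · simp [Matrix.diagonal_apply]
  · intro z _ hz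
    rw [Matrix.diagonal_apply_ne _ hz.symm, zero_mul]
  · intro h; exact absurd (Finset.mem_univ _) h

lemma dg_apply (u : X) (t : X → ℂ) (x : X) :
    (dg S u *ᵥ t) x = if S.c u x = 1 then t x else 0 := by
  rw [dg, Matrix.mulVec_diagonal]
  split_ifs <;> simp

lemma jn_entry (x y : X) : Jn X x y = (Fintype.card X : ℂ)⁻¹ := by
  change (Fintype.card X : ℂ)⁻¹ * 1 = _
  rw [mul_one]

lemma jn_apply (t : X → ℂ) (x : X) : (Jn X *ᵥ t) x = (Fintype.card X : ℂ)⁻¹ * ∑ y, t y := by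
  simp only [Matrix.mulVec, dotProduct, jn_entry, Finset.mul_sum]

lemma adj_eig (h_adj : S_EIGADJ) (hE : IsEig S E F) (u : X) :
    ∃ a b e : ℂ, adj S.c 1 = a • Jn X + b • E + e • F := by
  obtain ⟨b, e, h, -⟩ := (h_adj X S E F hE).2 1 (by decide) u
  exact ⟨_, b, e, h⟩

lemma adj_vec (h_adj : S_EIGADJ) (hE : IsEig S E F) {t : X → ℂ} (ht : E *ᵥ t = t) :
    ∃ b : ℂ, adj S.c 1 *ᵥ t = b • t := by
  obtain ⟨a, b, e, h⟩ := (h_adj X S E F hE).1 (adj S.c 1) (Submodule.subset_span ⟨1, rfl⟩)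
  refine ⟨b, ?_⟩
  rw [h, Matrix.add_mulVec, Matrix.add_mulVec, Matrix.smul_mulVec, Matrix.smul_mulVec,
    Matrix.smul_mulVec, jn_zero hE ht, f_zero hE ht, ht]
  simp

lemma sum_dg_zero (h_adj : S_EIGADJ) (hE : IsEig S E F) {u : X} {t : X → ℂ}
    (ht : E *ᵥ t = t) (hu : t u = 0) : ∑ y, (dg S u *ᵥ t) y = 0 := by
  obtain ⟨b, hb⟩ := adj_vec h_adj hE ht
  rw [sum_dg, hb]
  simp [hu]

lemma herm_dot {M : Matrix X X ℂ} (hM : M.conjTranspose = M) (a b : X → ℂ) :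
    star (M *ᵥ a) ⬝ᵥ b = star a ⬝ᵥ (M *ᵥ b) := by
  rw [Matrix.star_mulVec, hM, ← Matrix.dotProduct_mulVec]

lemma dg_herm (u : X) : (dg S u).conjTranspose = dg S u := by
  rw [dg, Matrix.diagonal_conjTranspose]
  congr 1
  funext x
  simp only [Pi.star_apply]
  split_ifs <;> simp

theorem key (h_adj : S_EIGADJ) (hD : WDelta S.c ≤ WStar S.c) (hE : IsEig S E F) (u : X)
    (v w : X → ℂ) (v0 : v ≠ 0) (w0 : w ≠ 0) (vs : ∀ x, S.c u x ≠ 1 → v x = 0)
    (ws : ∀ x, S.c u x ≠ 2 → w x = 0) (vE : E *ᵥ v = v) (wE : E *ᵥ w = w)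
    {t : X → ℂ} (ht : E *ᵥ t = t) (hu : t u = 0) : F *ᵥ (dg S u *ᵥ t) = 0 := by
  have hG : Delta (adj S.c 1) F (adj S.c 1) ∈ WStar S.c :=
    hD (delta_mem (Submodule.subset_span ⟨1, rfl⟩) hE.mem2 (Submodule.subset_span ⟨1, rfl⟩))
  obtain ⟨Φ, hΦ, h1⟩ := comp h_adj hE hG
  obtain ⟨φ, hφ⟩ := bm_iff.mp hΦ
  have h2 := h1 u
  rw [slice_dg] at h2
  have h3 : ∀ a : X → ℂ, E *ᵥ a = a → E *ᵥ (dg S u *ᵥ (F *ᵥ (dg S u *ᵥ a))) =
      E *ᵥ (Matrix.diagonal (Φ u) *ᵥ a) := by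
    intro a ha
    have := congrArg (fun M => M *ᵥ a) h2
    simp only [← Matrix.mulVec_mulVec, ha] at this
    exact this
  have dv : dg S u *ᵥ v = v := by
    funext x
    rw [dg_apply]
    split_ifs with h
    · rfl
    · exact (vs x h).symm
  have dw : dg S u *ᵥ w = 0 := by
    funext x
    rw [dg_apply]
    split_ifs with h
    · rw [ws x (by rw [h]; decide)]; rfl
    · rfl
  have pv : Matrix.diagonal (Φ u) *ᵥ v = φ 1 • v := by
    funext x
    rw [Matrix.mulVec_diagonal, hφ]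
    by_cases h : S.c u x = 1
    · rw [h]; rfl
    · rw [vs x h]; simp [vs x h]
  have pw : Matrix.diagonal (Φ u) *ᵥ w = φ 2 • w := by
    funext x
    rw [Matrix.mulVec_diagonal, hφ]
    by_cases h : S.c u x = 2
    · rw [h]; rfl
    · rw [ws x h]; simp [ws x h]
  have e1 : φ 1 = 0 := by
    have := h3 v vE
    rw [dv, f_zero hE vE, Matrix.mulVec_zero, Matrix.mulVec_zero, pv, Matrix.mulVec_smul, vE]
      at this
    rcases smul_eq_zero.mp this.symm with h | h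
    · exact h
    · exact absurd h v0
  have e2 : φ 2 = 0 := by
    have := h3 w wE
    rw [dw, Matrix.mulVec_zero, Matrix.mulVec_zero, Matrix.mulVec_zero, pw, Matrix.mulVec_smul,
      wE] at this
    rcases smul_eq_zero.mp this.symm with h | h
    · exact h
    · exact absurd h w0
  have pt : Matrix.diagonal (Φ u) *ᵥ t = 0 := by
    funext x
    rw [Matrix.mulVec_diagonal, hφ]
    have h012 : S.c u x = 0 ∨ S.c u x = 1 ∨ S.c u x = 2 := by
      have : ∀ i : Fin (2 + 1), i = 0 ∨ i = 1 ∨ i = 2 := by decide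
      exact this _
    rcases h012 with h | h | h
    · have : u = x := (S.diag u x).mp h
      rw [← this, hu, mul_zero]; rfl
    · rw [h, e1, zero_mul]; rfl
    · rw [h, e2, zero_mul]; rfl
  have h4 := h3 t ht
  rw [pt, Matrix.mulVec_zero] at h4
  have h5 : star (F *ᵥ (dg S u *ᵥ t)) ⬝ᵥ (F *ᵥ (dg S u *ᵥ t)) = 0 := by
    rw [herm_dot hE.herm2, Matrix.mulVec_mulVec, hE.sq2, herm_dot (dg_herm u)]
    have : star t ⬝ᵥ (dg S u *ᵥ (F *ᵥ (dg S u *ᵥ t))) =
        star (E *ᵥ t) ⬝ᵥ (dg S u *ᵥ (F *ᵥ (dg S u *ᵥ t))) := by rw [ht]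
    rw [this, herm_dot hE.herm1, h4]
    simp
  exact dotProduct_star_self_eq_zero.mp h5

theorem key2 (h_adj : S_EIGADJ) (hE : IsEig S E F) (u : X)
    (hk : ∀ t : X → ℂ, E *ᵥ t = t → t u = 0 → F *ᵥ (dg S u *ᵥ t) = 0)
    {t : X → ℂ} (ht : E *ᵥ t = t) (hu : t u = 0) : E *ᵥ (dg S u *ᵥ t) = dg S u *ᵥ t := by
  have h1 : Jn X *ᵥ (dg S u *ᵥ t) = 0 := by
    funext x
    rw [jn_apply, sum_dg_zero h_adj hE ht hu, mul_zero]; rfl
  have h2 : (1 : Matrix X X ℂ) *ᵥ (dg S u *ᵥ t) = dg S u *ᵥ t := Matrix.one_mulVec _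
  rw [← hE.sum, Matrix.add_mulVec, Matrix.add_mulVec, h1, hk t ht hu, zero_add, add_zero] at h2
  exact h2

lemma e_u (hE : IsEig S E F) (u : X) (s : X → ℂ) :
    ∃ ε : ℂ, (E *ᵥ (dg S u *ᵥ s)) u = ε * ∑ y, (dg S u *ᵥ s) y := by
  obtain ⟨ε, hε⟩ := bm_iff.mp hE.mem1
  refine ⟨ε 1, ?_⟩
  rw [Finset.mul_sum]
  simp only [Matrix.mulVec, dotProduct]
  refine Finset.sum_congr rfl fun y _ => ?_
  have : ∑ i, dg S u y i * s i = (dg S u *ᵥ s) y := rfl
  rw [this, dg_apply, hε]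
  split_ifs with h
  · rw [h]
  · simp

theorem key3 (h_adj : S_EIGADJ) (hE : IsEig S E F) (u : X)
    (hk : ∀ t : X → ℂ, E *ᵥ t = t → t u = 0 → F *ᵥ (dg S u *ᵥ t) = 0)
    {s : X → ℂ} (hs : F *ᵥ s = s) (hu : s u = 0) : E *ᵥ (dg S u *ᵥ s) = 0 := by
  obtain ⟨ε, hε⟩ := e_u hE u s
  rw [sum_dg_zero h_adj hE.swap hs hu, mul_zero] at hε
  have ht : E *ᵥ (E *ᵥ (dg S u *ᵥ s)) = E *ᵥ (dg S u *ᵥ s) := by
    rw [Matrix.mulVec_mulVec, hE.sq1]
  have h1 := hk _ ht hε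
  have h2 : star (E *ᵥ (dg S u *ᵥ s)) ⬝ᵥ (E *ᵥ (dg S u *ᵥ s)) = 0 := by
    rw [herm_dot hE.herm1, ht, herm_dot (dg_herm u)]
    have : star s ⬝ᵥ (dg S u *ᵥ (E *ᵥ (dg S u *ᵥ s))) =
        star (F *ᵥ s) ⬝ᵥ (dg S u *ᵥ (E *ᵥ (dg S u *ᵥ s))) := by rw [hs]
    rw [this, herm_dot hE.herm2, h1]
    simp
  exact dotProduct_star_self_eq_zero.mp h2

end

end Col

theorem col (h_adj : S_EIGADJ) (h_nbr : S_NBR) : S_COL := by
  intro X _ _ S hp hD E F hE u v w v0 w0 vs ws vE wE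
  have hk : ∀ t : X → ℂ, E *ᵥ t = t → t u = 0 → F *ᵥ (Col.dg S u *ᵥ t) = 0 :=
    fun t ht hu => Col.key h_adj hD hE u v w v0 w0 vs ws vE wE ht hu
  refine h_nbr X S hp u 1 2 (by decide) (by decide) (by decide) ?_
  intro x y z hx hy hz hxz
  obtain ⟨a0, b0, e0, hA⟩ := Col.adj_eig h_adj hE u
  set q : X → ℂ := Pi.single x 1 - Pi.single y 1 with hq
  have hDq : Col.dg S u *ᵥ q = q := by
    funext t
    rw [Col.dg_apply]
    split_ifs with h
    · rfl
    · have h1 : t ≠ x := fun h' => h (by rw [h']; exact hx)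
      have h2 : t ≠ y := fun h' => h (by rw [h']; exact hy)
      simp [hq, h1, h2]
  have hJq : Jn X *ᵥ q = 0 := by
    funext t
    rw [Col.jn_apply]
    simp [hq]
  have hsum : E *ᵥ q + F *ᵥ q = q := by
    have h2 : (1 : Matrix X X ℂ) *ᵥ q = q := Matrix.one_mulVec _
    rw [← hE.sum, Matrix.add_mulVec, Matrix.add_mulVec, hJq, zero_add] at h2
    exact h2
  have hval : ∀ M ∈ boseMesner S.c, (M *ᵥ q) u = 0 := by
    intro M hM
    obtain ⟨φ, hφ⟩ := bm_iff.mp hM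
    rw [hq, Matrix.mulVec_sub]
    simp [hφ, hx, hy]
  have hEE : E *ᵥ (E *ᵥ q) = E *ᵥ q := by rw [Matrix.mulVec_mulVec, hE.sq1]
  have hFF : F *ᵥ (F *ᵥ q) = F *ᵥ q := by rw [Matrix.mulVec_mulVec, hE.sq2]
  have h1 := Col.key2 h_adj hE u hk hEE (hval E hE.mem1)
  have h2 := Col.key3 h_adj hE u hk hFF (hval F hE.mem2)
  have h3 : Col.dg S u *ᵥ (E *ᵥ q) = E *ᵥ q := by
    have : E *ᵥ (Col.dg S u *ᵥ (E *ᵥ q + F *ᵥ q)) = E *ᵥ q := by rw [hsum, hDq]
    rw [Matrix.mulVec_add, Matrix.mulVec_add, h2, add_zero, h1] at this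
    exact this
  have h4 : Col.dg S u *ᵥ (F *ᵥ q) = F *ᵥ q := by
    have : Col.dg S u *ᵥ (E *ᵥ q + F *ᵥ q) = E *ᵥ q + F *ᵥ q := by rw [hsum, hDq]
    rw [Matrix.mulVec_add, h3] at this
    exact add_left_cancel this
  have h5 : Col.dg S u *ᵥ (adj S.c 1 *ᵥ q) = adj S.c 1 *ᵥ q := by
    rw [hA, Matrix.add_mulVec, Matrix.add_mulVec, Matrix.smul_mulVec, Matrix.smul_mulVec,
      Matrix.smul_mulVec, hJq, Matrix.mulVec_add, Matrix.mulVec_add, Matrix.mulVec_smul,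
      Matrix.mulVec_smul, Matrix.mulVec_smul, h3, h4]
    simp
  have h6 := congrFun h5 z
  rw [Col.dg_apply, if_neg (by rw [hz]; decide), hq, Matrix.mulVec_sub] at h6
  simp only [Matrix.mulVec_single_one, Pi.sub_apply, Matrix.col_apply, adj] at h6
  rw [S.symm z x, if_pos hxz] at h6
  by_contra hne
  rw [S.symm z y, if_neg hne] at h6
  norm_num at h6

end Pool.Agent.Y649.ETR
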