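import Pool.Agent.Results.MP_44674b_co.WreathExact

/-!
# Definitions for the project ETR (exactly triply regular schemes)
-/

namespace Pool.Agent.Y649.ETR

open Finset Pool.Agent.Results.MP_44674b_co.WreathExact

variable {X Y : Type} [Fintype X] [DecidableEq X] [Fintype Y] [DecidableEq Y] {d e : ℕ}

/-- the valency of the relation `i` at the point `x` -/
def val (c : X → X → Fin (d + 1)) (x : X) (i : Fin (d + 1)) : ℕ :=
  (univ.filter fun y => c x y = i).card

/-- the matrix `|X|⁻¹ J` -/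
noncomputable def Jn (X : Type) [Fintype X] : Matrix X X ℂ :=
  (Fintype.card X : ℂ)⁻¹ • (fun _ _ => 1 : Matrix X X ℂ)

/-- The colouring of the wreath product: two pairs with the same second coordinate have the colour
of their first coordinates (`≤ d`), two pairs with different second coordinates `y ≠ y'` have the
colour `d + c' y y'`. -/
def wrc (c : X → X → Fin (d + 1)) (c' : Y → Y → Fin (e + 1)) :
    X × Y → X × Y → Fin (d + e + 1) :=
  fun p q => if p.2 = q.2 then Fin.castLE (by omega) (c p.1 q.1)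
    else ⟨d + (c' p.2 q.2).val, by have := (c' p.2 q.2).isLt; omega⟩

/-- For two-class schemes: none of the two graphs `R_1`, `R_2` is a disjoint union of complete
graphs (the scheme is primitive). -/
def Prim2 (S : SymScheme X 2) : Prop :=
  ∀ i j : Fin (2 + 1), i ≠ 0 → j ≠ 0 → i ≠ j → ∃ x y z, S.c x y = i ∧ S.c y z = i ∧ S.c x z = j

/-- `|X|⁻¹ J, E1, E2` are the primitive idempotents of a two-class scheme -/
structure IsEig (S : SymScheme X 2) (E1 E2 : Matrix X X ℂ) : Prop where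
  mem1 : E1 ∈ boseMesner S.c
  mem2 : E2 ∈ boseMesner S.c
  sq1 : E1 * E1 = E1
  sq2 : E2 * E2 = E2
  m12 : E1 * E2 = 0
  m21 : E2 * E1 = 0
  j1 : Jn X * E1 = 0
  j2 : Jn X * E2 = 0
  k1 : E1 * Jn X = 0
  k2 : E2 * Jn X = 0
  sum : Jn X + E1 + E2 = 1
  herm1 : E1.conjTranspose = E1
  herm2 : E2.conjTranspose = E2
  ne1 : E1 ≠ 0
  ne2 : E2 ≠ 0

lemma IsEig.swap {S : SymScheme X 2} {E1 E2 : Matrix X X ℂ} (h : IsEig S E1 E2) :
    IsEig S E2 E1 :=
  ⟨h.mem2, h.mem1, h.sq2, h.sq1, h.m21, h.m12, h.j2, h.j1, h.k2, h.k1,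
    by rw [← h.sum]; abel, h.herm2, h.herm1, h.ne2, h.ne1⟩

/-- the disjoint-union-of-complete-graphs condition for the relation `i` of a two-class scheme -/
def Blocks (S : SymScheme X 2) (i : Fin (2 + 1)) (a b : ℕ) : Prop :=
  i ≠ 0 ∧ 2 ≤ a ∧ 2 ≤ b ∧ ∃ f : X ≃ Fin a × Fin b, ∀ x y, x ≠ y →
    (S.c x y = i ↔ (f x).2 = (f y).2)

/-! ### elementary facts -/

lemma bm_iff {c : X → X → Fin (d + 1)} {M : Matrix X X ℂ} :
    M ∈ boseMesner c ↔ ∃ φ : Fin (d + 1) → ℂ, ∀ x y, M x y = φ (c x y) := by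
  classical
  constructor
  · intro hM
    induction hM using Submodule.span_induction with
    | zero => exact ⟨0, fun x y => rfl⟩
    | add a b _ _ ha hb =>
      obtain ⟨φ, hφ⟩ := ha
      obtain ⟨ψ, hψ⟩ := hb
      exact ⟨φ + ψ, fun x y => by simp [hφ, hψ]⟩
    | smul r a _ ha =>
      obtain ⟨φ, hφ⟩ := ha
      exact ⟨r • φ, fun x y => by simp [hφ]⟩
    | mem a ha =>
      obtain ⟨i, rfl⟩ := ha
      exact ⟨fun j => if j = i then 1 else 0, fun x y => rfl⟩
  · rintro ⟨φ, hφ⟩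
    have : M = ∑ i, φ i • adj c i := by
      ext x y
      rw [Matrix.sum_apply, hφ]
      simp [adj]
    rw [this]
    exact Submodule.sum_mem _ fun i _ => Submodule.smul_mem _ _ (Submodule.subset_span ⟨i, rfl⟩)

lemma wdelta_iff {c : X → X → Fin (d + 1)} {T : X → X → X → ℂ} :
    T ∈ WDelta c ↔ ∃ φ : Fin (d + 1) → Fin (d + 1) → Fin (d + 1) → ℂ,
      ∀ x y z, T x y z = φ (c x y) (c x z) (c y z) := by
  classical
  constructor
  · intro hM
    induction hM using Submodule.span_induction with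
    | zero => exact ⟨0, fun x y z => rfl⟩
    | add a b _ _ ha hb =>
      obtain ⟨φ, hφ⟩ := ha
      obtain ⟨ψ, hψ⟩ := hb
      exact ⟨φ + ψ, fun x y z => by simp [hφ, hψ]⟩
    | smul r a _ ha =>
      obtain ⟨φ, hφ⟩ := ha
      exact ⟨r • φ, fun x y z => by simp [hφ]⟩
    | mem a ha =>
      obtain ⟨L, hL, M, hM, N, hN, rfl⟩ := ha
      obtain ⟨l, hl⟩ := bm_iff.mp hL
      obtain ⟨m, hm⟩ := bm_iff.mp hM
      obtain ⟨n, hn⟩ := bm_iff.mp hN
      exact ⟨fun i j k => l j * m i * n k, fun x y z => by simp [Delta, hl, hm, hn]⟩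
  · rintro ⟨φ, hφ⟩
    have : T = ∑ i, ∑ j, ∑ k, φ i j k • Delta (adj c j) (adj c i) (adj c k) := by
      funext x y z
      simp only [Finset.sum_apply, Pi.smul_apply, smul_eq_mul, Delta, adj, hφ]
      simp
    rw [this]
    refine Submodule.sum_mem _ fun i _ => Submodule.sum_mem _ fun j _ =>
      Submodule.sum_mem _ fun k _ => Submodule.smul_mem _ _ (Submodule.subset_span ?_)
    exact ⟨_, Submodule.subset_span ⟨j, rfl⟩, _, Submodule.subset_span ⟨i, rfl⟩, _,
      Submodule.subset_span ⟨k, rfl⟩, rfl⟩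

lemma star_mem {c : X → X → Fin (d + 1)} {L M N : Matrix X X ℂ} (hL : L ∈ boseMesner c)
    (hM : M ∈ boseMesner c) (hN : N ∈ boseMesner c) : Star L M N ∈ WStar c :=
  Submodule.subset_span ⟨_, hL, _, hM, _, hN, rfl⟩

lemma delta_mem {c : X → X → Fin (d + 1)} {L M N : Matrix X X ℂ} (hL : L ∈ boseMesner c)
    (hM : M ∈ boseMesner c) (hN : N ∈ boseMesner c) : Delta L M N ∈ WDelta c :=
  Submodule.subset_span ⟨_, hL, _, hM, _, hN, rfl⟩

end Pool.Agent.Y649.ETR
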