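import Pool.Agent.Y649.ETR.Mul

namespace Pool.Agent.Y649.ETR

open Finset Matrix Pool.Agent.Results.MP_44674b_co.WreathExact

namespace Eig

section

variable {R : Type} [Ring R] [Algebra ℂ R]

lemma alg1 (I A : R) (p q r s : ℂ) (hII : I * I = I) (hIA : I * A = A) (hAI : A * I = A)
    (hAA : A * A = q • I + p • A) (hp : r + s = p) (hq : r * s = -q) (hrs : r - s ≠ 0) :
    ((r - s)⁻¹ • (A - s • I)) * ((r - s)⁻¹ • (A - s • I)) = (r - s)⁻¹ • (A - s • I) := by
  have h1 : (A - s • I) * (A - s • I) = (r - s) • (A - s • I) := by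
    rw [mul_sub, sub_mul, sub_mul, smul_mul_assoc, mul_smul_comm, smul_mul_assoc,
      mul_smul_comm, hII, hIA, hAI, hAA]
    have : q = -(r * s) := by rw [hq]; ring
    rw [this, ← hp]
    module
  rw [smul_mul_smul_comm, h1, smul_smul]
  congr 1
  field_simp

lemma alg2 (I A : R) (p q r s : ℂ) (hII : I * I = I) (hIA : I * A = A) (hAI : A * I = A)
    (hAA : A * A = q • I + p • A) (hp : r + s = p) (hq : r * s = -q) :
    ((r - s)⁻¹ • (A - s • I)) * ((s - r)⁻¹ • (A - r • I)) = 0 := by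
  have h1 : (A - s • I) * (A - r • I) = 0 := by
    rw [mul_sub, sub_mul, sub_mul, smul_mul_assoc, mul_smul_comm, smul_mul_assoc,
      mul_smul_comm, hII, hIA, hAI, hAA]
    have : q = -(r * s) := by rw [hq]; ring
    rw [this, ← hp]
    module
  rw [smul_mul_smul_comm, h1, smul_zero]

end

section

variable {X : Type} [Fintype X] [DecidableEq X]

/-- the all-one matrix -/
def J (X : Type) : Matrix X X ℂ := fun _ _ => 1

lemma Jn_eq : Jn X = (Fintype.card X : ℂ)⁻¹ • J X := rfl

lemma J_mul_J : J X * J X = (Fintype.card X : ℂ) • J X := by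
  ext x y
  rw [Matrix.mul_apply]
  simp [J]

lemma adj_one_herm (S : SymScheme X 2) : (adj S.c 1).conjTranspose = adj S.c 1 := by
  ext x y
  rw [Matrix.conjTranspose_apply]
  simp only [adj, S.symm y x]
  split_ifs <;> simp

lemma J_herm : (J X).conjTranspose = J X := by
  ext x y
  rw [Matrix.conjTranspose_apply]
  simp [J]

theorem main : S_EIG := by
  classical
  intro X _ _ S
  obtain ⟨x0, x1, h01⟩ := S.surj 1
  obtain ⟨x2, x3, h23⟩ := S.surj 2
  have hn : (Fintype.card X : ℂ) ≠ 0 := by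
    have : 0 < Fintype.card X := Fintype.card_pos_iff.mpr ⟨x0⟩
    exact_mod_cast this.ne'
  -- the numbers
  let cnt : X → X → ℕ := fun x y => (univ.filter fun z => S.c x z = 1 ∧ S.c z y = 1).card
  obtain ⟨k, hk⟩ : ∃ k, cnt x0 x0 = k := ⟨_, rfl⟩
  obtain ⟨l, hl⟩ : ∃ l, cnt x0 x1 = l := ⟨_, rfl⟩
  obtain ⟨m, hm⟩ : ∃ m, cnt x2 x3 = m := ⟨_, rfl⟩
  have c0 : ∀ x y, S.c x y = 0 → cnt x y = k := fun x y h => by
    rw [← hk]; exact S.regular 1 1 x y x0 x0 (by rw [h, (S.diag x0 x0).mpr rfl])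
  have c1 : ∀ x y, S.c x y = 1 → cnt x y = l := fun x y h => by
    rw [← hl]; exact S.regular 1 1 x y x0 x1 (by rw [h, h01])
  have c2 : ∀ x y, S.c x y = 2 → cnt x y = m := fun x y h => by
    rw [← hm]; exact S.regular 1 1 x y x2 x3 (by rw [h, h23])
  have ck : ∀ x, (univ.filter fun z => S.c x z = 1).card = k := by
    intro x
    rw [← c0 x x ((S.diag x x).mpr rfl)]
    congr 1
    ext z
    simp only [Finset.mem_filter, Finset.mem_univ, true_and]
    constructor
    · intro h; exact ⟨h, by rw [S.symm]; exact h⟩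
    · intro h; exact h.1
  have hmk : m ≤ k := by
    rw [← hm, ← ck x2]
    apply Finset.card_le_card
    intro z hz
    simp only [Finset.mem_filter, Finset.mem_univ, true_and] at hz ⊢
    exact hz.1
  have hlk : l < k := by
    rw [← hl, ← ck x0]
    apply Finset.card_lt_card
    rw [Finset.ssubset_iff_of_subset]
    · refine ⟨x1, by simp [h01], ?_⟩
      simp only [Finset.mem_filter, Finset.mem_univ, true_and, not_and]
      intro _ h
      rw [(S.diag x1 x1).mpr rfl] at h
      exact absurd h (by decide)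
    · intro z hz
      simp only [Finset.mem_filter, Finset.mem_univ, true_and] at hz ⊢
      exact hz.1
  -- the roots
  let p : ℝ := (l : ℝ) - m
  let q : ℝ := (k : ℝ) - m
  have hq0 : 0 ≤ q := by
    have : (m : ℝ) ≤ k := by exact_mod_cast hmk
    simp only [q]; linarith
  have hD : 0 < p ^ 2 + 4 * q := by
    by_cases h : m = k
    · have h1 : (l : ℝ) < m := by rw [h]; exact_mod_cast hlk
      have : p ≠ 0 := by simp only [p]; linarith
      positivity
    · have h1 : m < k := lt_of_le_of_ne hmk h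
      have : (m : ℝ) < k := by exact_mod_cast h1
      have : 0 < q := by simp only [q]; linarith
      positivity
  set D := Real.sqrt (p ^ 2 + 4 * q) with hDdef
  have hD0 : 0 < D := Real.sqrt_pos.mpr hD
  have hDD : D * D = p ^ 2 + 4 * q := Real.mul_self_sqrt hD.le
  let r : ℝ := (p + D) / 2
  let s : ℝ := (p - D) / 2
  have hrs1 : r + s = p := by simp only [r, s]; ring
  have hrs2 : r * s = -q := by simp only [r, s]; nlinarith
  have hrs3 : r - s ≠ 0 := by
    have : r - s = D := by simp only [r, s]; ring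
    rw [this]; exact hD0.ne'
  have Hrs1 : (r : ℂ) + (s : ℂ) = (p : ℂ) := by exact_mod_cast hrs1
  have Hrs2 : (r : ℂ) * (s : ℂ) = -(q : ℂ) := by exact_mod_cast hrs2
  have Hrs3 : (r : ℂ) - (s : ℂ) ≠ 0 := by exact_mod_cast hrs3
  have Hrs3' : (s : ℂ) - (r : ℂ) ≠ 0 := by
    intro h; apply Hrs3; linear_combination -h
  -- the matrices
  set A : Matrix X X ℂ := adj S.c 1 with hAdef
  have hAJ : A * J X = (k : ℂ) • J X := by
    ext x y
    rw [Matrix.mul_apply]
    simp only [hAdef, adj, J, mul_one, Matrix.smul_apply, smul_eq_mul, Finset.sum_boole]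
    rw [ck x]
  have hJA : J X * A = (k : ℂ) • J X := by
    ext x y
    rw [Matrix.mul_apply]
    simp only [hAdef, adj, J, one_mul, Matrix.smul_apply, smul_eq_mul, mul_one]
    rw [← ck y, ← Finset.sum_boole]
    exact Finset.sum_congr rfl fun z _ => by rw [S.symm z y]
  have hAA : A * A = (q : ℂ) • (1 : Matrix X X ℂ) + (p : ℂ) • A + (m : ℂ) • J X := by
    ext x y
    have h1 : (A * A) x y = (cnt x y : ℂ) := by
      rw [Matrix.mul_apply]
      simp only [hAdef, adj, cnt]
      rw [← Finset.sum_boole]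
      refine Finset.sum_congr rfl fun z _ => ?_
      by_cases q1 : S.c x z = 1 <;> by_cases q2 : S.c z y = 1 <;> simp [q1, q2]
    rw [h1]
    simp only [Matrix.add_apply, Matrix.smul_apply, smul_eq_mul, J, mul_one, hAdef, adj,
      Matrix.one_apply]
    have h012 : S.c x y = 0 ∨ S.c x y = 1 ∨ S.c x y = 2 := by
      have : ∀ i : Fin (2 + 1), i = 0 ∨ i = 1 ∨ i = 2 := by decide
      exact this _
    rcases h012 with h | h | h
    · rw [c0 x y h, h, if_pos ((S.diag x y).mp h)]
      simp only [q]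
      push_cast
      simp
    · have hxy : x ≠ y := fun h' => by
        rw [(S.diag x y).mpr h'] at h; exact absurd h (by decide)
      rw [c1 x y h, h, if_neg hxy]
      simp only [p]
      push_cast
      simp
    · have hxy : x ≠ y := fun h' => by
        rw [(S.diag x y).mpr h'] at h; exact absurd h (by decide)
      rw [c2 x y h, h, if_neg hxy]
      simp
  have hkk : (k : ℂ) * k = q + p * k + m * (Fintype.card X : ℂ) := by
    have h1 : A * A * J X = ((k : ℂ) * k) • J X := by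
      rw [mul_assoc, hAJ, mul_smul_comm, hAJ, smul_smul]
    rw [hAA, add_mul, add_mul, smul_mul_assoc, smul_mul_assoc, smul_mul_assoc, one_mul, hAJ,
      J_mul_J, smul_smul, smul_smul, ← add_smul, ← add_smul] at h1
    have h2 := congrFun (congrFun h1 x0) x0
    simp only [Matrix.smul_apply, J, smul_eq_mul, mul_one] at h2
    exact h2.symm
  set I' : Matrix X X ℂ := 1 - Jn X with hI'
  set A' : Matrix X X ℂ := A - (k : ℂ) • Jn X with hA'
  have jj : Jn X * Jn X = Jn X := by
    rw [Jn_eq, smul_mul_smul_comm, J_mul_J, smul_smul]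
    congr 1
    field_simp
  have ja : Jn X * A = (k : ℂ) • Jn X := by
    rw [Jn_eq, smul_mul_assoc, hJA, smul_comm]
  have aj : A * Jn X = (k : ℂ) • Jn X := by
    rw [Jn_eq, mul_smul_comm, hAJ, smul_comm]
  have jI : Jn X * I' = 0 := by rw [hI', mul_sub, mul_one, jj, sub_self]
  have Ij : I' * Jn X = 0 := by rw [hI', sub_mul, one_mul, jj, sub_self]
  have jA : Jn X * A' = 0 := by rw [hA', mul_sub, mul_smul_comm, ja, jj, sub_self]
  have Aj : A' * Jn X = 0 := by rw [hA', sub_mul, smul_mul_assoc, aj, jj, sub_self]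
  have II : I' * I' = I' := by
    conv_lhs => rw [hI', sub_mul, one_mul, ← hI', jI, sub_zero]
  have IA : I' * A' = A' := by
    rw [hI', sub_mul, one_mul, jA, sub_zero]
  have AI : A' * I' = A' := by
    rw [hI', mul_sub, mul_one, Aj, sub_zero]
  have AA : A' * A' = (q : ℂ) • I' + (p : ℂ) • A' := by
    have e1 : A' * A' = A * A - ((k : ℂ) * k) • Jn X := by
      conv_lhs => rw [hA', sub_mul, ← hA', smul_mul_assoc, jA, smul_zero, sub_zero, hA', mul_sub,
        mul_smul_comm, aj, smul_smul]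
    have e2 : J X = (Fintype.card X : ℂ) • Jn X := by
      rw [Jn_eq, smul_smul, mul_inv_cancel₀ hn, one_smul]
    rw [e1, hAA, hkk, e2, hI', hA']
    module
  have nonpar : ∀ t : ℂ, A' ≠ t • I' := by
    intro t ht
    have jent : ∀ x y, Jn X x y = (Fintype.card X : ℂ)⁻¹ := fun x y => by
      change (Fintype.card X : ℂ)⁻¹ * 1 = _
      rw [mul_one]
    have n01 : x0 ≠ x1 := fun h' => by
      rw [(S.diag x0 x1).mpr h'] at h01; exact absurd h01 (by decide)
    have n23 : x2 ≠ x3 := fun h' => by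
      rw [(S.diag x2 x3).mpr h'] at h23; exact absurd h23 (by decide)
    have e1 := congrFun (congrFun ht x0) x1
    have e2 := congrFun (congrFun ht x2) x3
    simp only [hA', hI', Matrix.sub_apply, Matrix.smul_apply, jent, hAdef, adj, h01, h23,
      Matrix.one_apply_ne n01, Matrix.one_apply_ne n23, smul_eq_mul, if_true] at e1 e2
    rw [← e2] at e1
    simp at e1
  have memA : A ∈ boseMesner S.c := Submodule.subset_span ⟨1, rfl⟩
  have memJ : Jn X ∈ boseMesner S.c := bm_iff.mpr ⟨fun _ => (Fintype.card X : ℂ)⁻¹ * 1,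
    fun x y => rfl⟩
  have mem1 : (1 : Matrix X X ℂ) ∈ boseMesner S.c := bm_iff.mpr
    ⟨fun i => if i = 0 then 1 else 0, fun x y => by simp only [Matrix.one_apply, S.diag]⟩
  have memI' : I' ∈ boseMesner S.c := Submodule.sub_mem _ mem1 memJ
  have memA' : A' ∈ boseMesner S.c := Submodule.sub_mem _ memA (Submodule.smul_mem _ _ memJ)
  have hermJ : (Jn X).conjTranspose = Jn X := by
    rw [Jn_eq, Matrix.conjTranspose_smul, J_herm]
    congr 1
    simp
  have hermI : I'.conjTranspose = I' := by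
    rw [hI', Matrix.conjTranspose_sub, Matrix.conjTranspose_one, hermJ]
  have hermA : A'.conjTranspose = A' := by
    rw [hA', Matrix.conjTranspose_sub, Matrix.conjTranspose_smul, hermJ, hAdef, adj_one_herm]
    simp
  have hermE : ∀ a b : ℝ, (((a : ℂ) - (b : ℂ))⁻¹ • (A' - (b : ℂ) • I')).conjTranspose =
      ((a : ℂ) - (b : ℂ))⁻¹ • (A' - (b : ℂ) • I') := by
    intro a b
    rw [Matrix.conjTranspose_smul, Matrix.conjTranspose_sub, Matrix.conjTranspose_smul, hermI,
      hermA]
    simp [Complex.conj_ofReal]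
  have Hrs1' : (s : ℂ) + (r : ℂ) = (p : ℂ) := by rw [add_comm]; exact Hrs1
  have Hrs2' : (s : ℂ) * (r : ℂ) = -(q : ℂ) := by rw [mul_comm]; exact Hrs2
  refine ⟨((r : ℂ) - (s : ℂ))⁻¹ • (A' - (s : ℂ) • I'),
    ((s : ℂ) - (r : ℂ))⁻¹ • (A' - (r : ℂ) • I'), ?_⟩
  refine ⟨?_, ?_, ?_, ?_, ?_, ?_, ?_, ?_, ?_, ?_, ?_, ?_, ?_, ?_, ?_⟩
  · exact Submodule.smul_mem _ _ (Submodule.sub_mem _ memA' (Submodule.smul_mem _ _ memI'))
  · exact Submodule.smul_mem _ _ (Submodule.sub_mem _ memA' (Submodule.smul_mem _ _ memI'))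
  · exact alg1 I' A' p q r s II IA AI AA Hrs1 Hrs2 Hrs3
  · exact alg1 I' A' p q s r II IA AI AA Hrs1' Hrs2' Hrs3'
  · exact alg2 I' A' p q r s II IA AI AA Hrs1 Hrs2
  · exact alg2 I' A' p q s r II IA AI AA Hrs1' Hrs2'
  · rw [mul_smul_comm, mul_sub, mul_smul_comm, jA, jI]; simp
  · rw [mul_smul_comm, mul_sub, mul_smul_comm, jA, jI]; simp
  · rw [smul_mul_assoc, sub_mul, smul_mul_assoc, Aj, Ij]; simp
  · rw [smul_mul_assoc, sub_mul, smul_mul_assoc, Aj, Ij]; simp
  · have e1 : ((s : ℂ) - (r : ℂ))⁻¹ = -((r : ℂ) - (s : ℂ))⁻¹ := by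
      rw [← neg_sub, neg_inv]
    have e2 : ((r : ℂ) - (s : ℂ))⁻¹ • (A' - (s : ℂ) • I') +
        ((s : ℂ) - (r : ℂ))⁻¹ • (A' - (r : ℂ) • I') = I' := by
      rw [e1]
      have : ((r : ℂ) - (s : ℂ))⁻¹ • (A' - (s : ℂ) • I') +
          (-((r : ℂ) - (s : ℂ))⁻¹) • (A' - (r : ℂ) • I') =
          (((r : ℂ) - (s : ℂ))⁻¹ * ((r : ℂ) - (s : ℂ))) • I' := by module
      rw [this, inv_mul_cancel₀ Hrs3, one_smul]
    rw [add_assoc, e2, hI']
    abel
  · exact hermE r s
  · exact hermE s r
  · intro h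
    rcases smul_eq_zero.mp h with h | h
    · exact inv_ne_zero Hrs3 h
    · exact nonpar _ (sub_eq_zero.mp h)
  · intro h
    rcases smul_eq_zero.mp h with h | h
    · exact inv_ne_zero Hrs3' h
    · exact nonpar _ (sub_eq_zero.mp h)

end

end Eig

end Pool.Agent.Y649.ETR
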