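import Pool.Agent.Y649.ETR.Row

namespace Pool.Agent.Y649.ETR

open Finset Matrix Pool.Agent.Results.MP_44674b_co.WreathExact

namespace FV

section

variable {X : Type} [Fintype X] [DecidableEq X]

lemma prim_of {S : SymScheme X 2} {e : Matrix X X ℂ} (h1 : e ∈ boseMesner S.c) (h2 : e * e = e)
    (h3 : e ≠ 0) (h4 : ∀ f ∈ boseMesner S.c, ∃ a : ℂ, e * f = a • e) :
    S.IsPrimitiveIdempotent e := by
  refine ⟨h1, h2, h3, ?_⟩
  intro f hf hff hef
  obtain ⟨a, ha⟩ := h4 f hf
  have hfa : f = a • e := hef.symm.trans ha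
  rw [hfa, smul_mul_smul_comm, h2] at hff
  have h5 : (a * a - a) • e = 0 := by rw [sub_smul, hff, sub_self]
  rcases smul_eq_zero.mp h5 with h6 | h6
  · have : a * (a - 1) = 0 := by linear_combination h6
    rcases mul_eq_zero.mp this with h7 | h7
    · left; rw [hfa, h7, zero_smul]
    · right; rw [hfa, sub_eq_zero.mp h7, one_smul]
  · exact absurd h6 h3

lemma jj (x0 : X) : Jn X * Jn X = Jn X := by
  have hn : (Fintype.card X : ℂ) ≠ 0 := by
    have : 0 < Fintype.card X := Fintype.card_pos_iff.mpr ⟨x0⟩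
    exact_mod_cast this.ne'
  ext x y
  rw [Matrix.mul_apply]
  change ∑ z, ((Fintype.card X : ℂ)⁻¹ * 1) * ((Fintype.card X : ℂ)⁻¹ * 1) =
    (Fintype.card X : ℂ)⁻¹ * 1
  rw [Finset.sum_const, Finset.card_univ, nsmul_eq_mul]
  field_simp

lemma jne (x0 : X) : Jn X ≠ 0 := by
  have hn : (Fintype.card X : ℂ) ≠ 0 := by
    have : 0 < Fintype.card X := Fintype.card_pos_iff.mpr ⟨x0⟩
    exact_mod_cast this.ne'
  intro h
  have h1 := congrFun (congrFun h x0) x0
  have h2 : (Fintype.card X : ℂ)⁻¹ * 1 = 0 := h1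
  rw [mul_one] at h2
  exact inv_ne_zero hn h2

lemma jmem (S : SymScheme X 2) : Jn X ∈ boseMesner S.c :=
  bm_iff.mpr ⟨fun _ => (Fintype.card X : ℂ)⁻¹ * 1, fun x y => rfl⟩

lemma prim_iff (h_adj : S_EIGADJ) {S : SymScheme X 2} {E F : Matrix X X ℂ} (hE : IsEig S E F)
    (x0 : X) (e : Matrix X X ℂ) :
    S.IsPrimitiveIdempotent e ↔ e = Jn X ∨ e = E ∨ e = F := by
  have hdec := (h_adj X S E F hE).1
  have mulJ : ∀ a b c : ℂ, Jn X * (a • Jn X + b • E + c • F) = a • Jn X := by
    intro a b c
    rw [mul_add, mul_add, mul_smul_comm, mul_smul_comm, mul_smul_comm, jj x0, hE.j1, hE.j2]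
    simp
  have mulE : ∀ a b c : ℂ, E * (a • Jn X + b • E + c • F) = b • E := by
    intro a b c
    rw [mul_add, mul_add, mul_smul_comm, mul_smul_comm, mul_smul_comm, hE.k1, hE.sq1, hE.m12]
    simp
  have mulF : ∀ a b c : ℂ, F * (a • Jn X + b • E + c • F) = c • F := by
    intro a b c
    rw [mul_add, mul_add, mul_smul_comm, mul_smul_comm, mul_smul_comm, hE.k2, hE.m21, hE.sq2]
    simp
  have Jmul : ∀ a b c : ℂ, (a • Jn X + b • E + c • F) * Jn X = a • Jn X := by
    intro a b c
    rw [add_mul, add_mul, smul_mul_assoc, smul_mul_assoc, smul_mul_assoc, jj x0, hE.k1, hE.k2]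
    simp
  have Emul : ∀ a b c : ℂ, (a • Jn X + b • E + c • F) * E = b • E := by
    intro a b c
    rw [add_mul, add_mul, smul_mul_assoc, smul_mul_assoc, smul_mul_assoc, hE.j1, hE.sq1, hE.m21]
    simp
  have Fmul : ∀ a b c : ℂ, (a • Jn X + b • E + c • F) * F = c • F := by
    intro a b c
    rw [add_mul, add_mul, smul_mul_assoc, smul_mul_assoc, smul_mul_assoc, hE.j2, hE.m12, hE.sq2]
    simp
  constructor
  · rintro ⟨hm, hid, hne, hpr⟩
    obtain ⟨a, b, c, rfl⟩ := hdec e hm
    have gen : ∀ (g : Matrix X X ℂ) (t : ℂ), g ∈ boseMesner S.c → g * g = g → g ≠ 0 →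
        (a • Jn X + b • E + c • F) * g = t • g → t = 0 ∨ (a • Jn X + b • E + c • F) = g := by
      intro g t hg hgg hg0 ht
      have h1 : (t * t) • g = t • g := by
        calc (t * t) • g = t • (t • g) := by rw [smul_smul]
          _ = (a • Jn X + b • E + c • F) * ((a • Jn X + b • E + c • F) * g) := by
              rw [ht, mul_smul_comm, ht]
          _ = t • g := by rw [← mul_assoc, hid, ht]
      have h5 : (t * t - t) • g = 0 := by rw [sub_smul, h1, sub_self]
      rcases smul_eq_zero.mp h5 with h6 | h6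
      · have : t * (t - 1) = 0 := by linear_combination h6
        rcases mul_eq_zero.mp this with h7 | h7
        · exact Or.inl h7
        · right
          rw [sub_eq_zero.mp h7, one_smul] at ht
          rcases hpr g hg hgg ht with h8 | h8
          · exact absurd h8 hg0
          · exact h8.symm
      · exact absurd h6 hg0
    rcases gen (Jn X) a (jmem S) (jj x0) (jne x0) (Jmul a b c) with h1 | h1
    · rcases gen E b hE.mem1 hE.sq1 hE.ne1 (Emul a b c) with h2 | h2
      · rcases gen F c hE.mem2 hE.sq2 hE.ne2 (Fmul a b c) with h3 | h3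
        · exfalso; apply hne; rw [h1, h2, h3]; simp
        · exact Or.inr (Or.inr h3)
      · exact Or.inr (Or.inl h2)
    · exact Or.inl h1
  · rintro (rfl | rfl | rfl)
    · refine prim_of (jmem S) (jj x0) (jne x0) ?_
      intro f hf
      obtain ⟨a, b, c, rfl⟩ := hdec f hf
      exact ⟨a, mulJ a b c⟩
    · refine prim_of hE.mem1 hE.sq1 hE.ne1 ?_
      intro f hf
      obtain ⟨a, b, c, rfl⟩ := hdec f hf
      exact ⟨b, mulE a b c⟩
    · refine prim_of hE.mem2 hE.sq2 hE.ne2 ?_
      intro f hf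
      obtain ⟨a, b, c, rfl⟩ := hdec f hf
      exact ⟨c, mulF a b c⟩

theorem main (h_adj : S_EIGADJ) : S_FSDVAL := by
  intro X _ _ S E F hE u hval
  have hn : (Fintype.card X : ℂ) ≠ 0 := by
    have : 0 < Fintype.card X := Fintype.card_pos_iff.mpr ⟨u⟩
    exact_mod_cast this.ne'
  obtain ⟨r, s, hA1, -⟩ := (h_adj X S E F hE).2 1 (by decide) u
  -- valencies
  have hpos : ∀ i, val S.c u i ≠ 0 := by
    intro i
    obtain ⟨x, y, hxy⟩ := S.surj i
    obtain ⟨z, hz, -⟩ := ex_reg S (x := x) (y := x) (x' := u) (y' := u) y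
      (by rw [(S.diag x x).mpr rfl, (S.diag u u).mpr rfl])
    rw [hxy] at hz
    exact (Finset.card_pos.mpr ⟨z, by simp [hz]⟩).ne'
  have hsumN : val S.c u 0 + val S.c u 1 + val S.c u 2 = Fintype.card X := by
    have h1 := Finset.card_eq_sum_card_fiberwise (f := S.c u) (s := (univ : Finset X))
      (t := (univ : Finset (Fin (2 + 1)))) (fun x _ => Finset.mem_univ _)
    rw [Finset.card_univ] at h1
    rw [h1]
    exact (Fin.sum_univ_three (fun i : Fin 3 => (univ.filter fun y => S.c u y = i).card)).symm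
  have hv0 : val S.c u 0 = 1 := by
    have : (univ.filter fun y => S.c u y = 0) = {u} := by
      ext y
      simp only [Finset.mem_filter, Finset.mem_univ, true_and, Finset.mem_singleton, S.diag]
      exact eq_comm
    rw [val, this, Finset.card_singleton]
  set k : ℂ := (val S.c u 1 : ℂ) with hk
  set l : ℂ := (val S.c u 2 : ℂ) with hl
  have hk0 : k ≠ 0 := by rw [hk]; exact_mod_cast hpos 1
  have hl0 : l ≠ 0 := by rw [hl]; exact_mod_cast hpos 2
  have hN : (Fintype.card X : ℂ) = 1 + k + l := by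
    rw [← hsumN, hv0]; push_cast; rfl
  have hA0 : adj S.c 0 = (1 : Matrix X X ℂ) := by
    ext a b
    simp only [adj, Matrix.one_apply, S.diag]
  have hAs : adj S.c 0 + adj S.c 1 + adj S.c 2 = (Fintype.card X : ℂ) • Jn X := by
    ext x y
    have h1 : ((Fintype.card X : ℂ) • Jn X) x y = 1 := by
      change (Fintype.card X : ℂ) * ((Fintype.card X : ℂ)⁻¹ * 1) = 1
      field_simp
    rw [h1]
    simp only [Matrix.add_apply, adj]
    have h012 : S.c x y = 0 ∨ S.c x y = 1 ∨ S.c x y = 2 := by
      have : ∀ i : Fin (2 + 1), i = 0 ∨ i = 1 ∨ i = 2 := by decide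
      exact this _
    rcases h012 with h | h | h <;> rw [h] <;> simp
  have hA2 : adj S.c 2 = l • Jn X + (-(1 + r)) • E + (-(1 + s)) • F := by
    have h1 : adj S.c 2 = (Fintype.card X : ℂ) • Jn X - (Jn X + E + F) -
        (k • Jn X + r • E + s • F) := by
      rw [← hAs, ← hA1, hE.sum, hA0]; abel
    rw [h1, hN]
    module
  -- traces
  have tJ : Matrix.trace (Jn X) = 1 := by
    rw [Matrix.trace]
    change ∑ x : X, (Fintype.card X : ℂ)⁻¹ * 1 = 1
    rw [Finset.sum_const, Finset.card_univ, nsmul_eq_mul]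
    field_simp
  have t1 : Matrix.trace (1 : Matrix X X ℂ) = Fintype.card X := Matrix.trace_one
  have tF : Matrix.trace F = l := by
    rw [← hE.sum, Matrix.trace_add, Matrix.trace_add, tJ, ← hval, hN] at t1
    linear_combination t1
  have tA : Matrix.trace (adj S.c 1) = 0 := by
    rw [Matrix.trace]
    apply Finset.sum_eq_zero
    intro a _
    simp only [Matrix.diag_apply, adj]
    rw [(S.diag a a).mpr rfl]
    simp
  have e1 : k + r * k + s * l = 0 := by
    rw [hA1, Matrix.trace_add, Matrix.trace_add, Matrix.trace_smul, Matrix.trace_smul,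
      Matrix.trace_smul, tJ, ← hval, tF] at tA
    simp only [smul_eq_mul, mul_one] at tA
    exact tA
  have hsq : adj S.c 1 * adj S.c 1 = (k * k) • Jn X + (r * r) • E + (s * s) • F := by
    rw [hA1]
    simp only [mul_add, add_mul, smul_mul_smul_comm, jj u, hE.j1, hE.j2, hE.k1, hE.k2, hE.sq1,
      hE.sq2, hE.m12, hE.m21, smul_zero, add_zero, zero_add]
  have tAA : Matrix.trace (adj S.c 1 * adj S.c 1) = (Fintype.card X : ℂ) * k := by
    rw [Matrix.trace]
    have : ∀ x, (adj S.c 1 * adj S.c 1).diag x = k := by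
      intro x
      rw [Matrix.diag_apply, Matrix.mul_apply]
      have h1 : (univ.filter fun z => S.c x z = 1 ∧ S.c z x = 1).card =
          (univ.filter fun z => S.c u z = 1 ∧ S.c z u = 1).card :=
        S.regular 1 1 x x u u (by rw [(S.diag x x).mpr rfl, (S.diag u u).mpr rfl])
      have h2 : (univ.filter fun z => S.c u z = 1 ∧ S.c z u = 1) =
          (univ.filter fun z => S.c u z = 1) := by
        ext z
        simp only [Finset.mem_filter, Finset.mem_univ, true_and, S.symm z u, and_self]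
      rw [h2] at h1
      have h3 : ∀ z, adj S.c 1 x z * adj S.c 1 z x =
          if S.c x z = 1 ∧ S.c z x = 1 then 1 else 0 := by
        intro z
        simp only [adj]
        by_cases q1 : S.c x z = 1 <;> by_cases q2 : S.c z x = 1 <;> simp [q1, q2]
      rw [Finset.sum_congr rfl fun z _ => h3 z, Finset.sum_boole, h1]
      rfl
    rw [Finset.sum_congr rfl fun x _ => this x, Finset.sum_const, Finset.card_univ,
      nsmul_eq_mul]
  have e2 : k * k + r * r * k + s * s * l = (1 + k + l) * k := by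
    rw [hsq, Matrix.trace_add, Matrix.trace_add, Matrix.trace_smul, Matrix.trace_smul,
      Matrix.trace_smul, tJ, ← hval, tF, hN] at tAA
    simp only [smul_eq_mul, mul_one] at tAA
    exact tAA
  have q11 : k + r * r - (1 + r) * s = 1 + k + l := by
    apply mul_left_cancel₀ hk0
    linear_combination e2 - s * e1
  have q12 : l - r * (1 + r) + (1 + r) * (1 + s) = 0 := by linear_combination -q11
  have q21 : k + s * r - (1 + s) * s = 0 := by
    apply mul_left_cancel₀ hl0
    linear_combination (r - 1 - s) * e1 + k * q12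
  have q22 : l - s * (1 + r) + (1 + s) * (1 + s) = 1 + k + l := by linear_combination -q21
  let P : Matrix (Fin (2 + 1)) (Fin (2 + 1)) ℂ := !![1, k, l; 1, r, -(1 + r); 1, s, -(1 + s)]
  let EE : Fin (2 + 1) → Matrix X X ℂ := ![Jn X, E, F]
  have hs3 : ∀ (f : Fin (2 + 1) → Matrix X X ℂ), ∑ i, f i = f 0 + f 1 + f 2 :=
    fun f => Fin.sum_univ_three f
  have neJE : Jn X ≠ E := by
    intro h
    have := hE.j1
    rw [h, hE.sq1] at this
    exact hE.ne1 this
  have neJF : Jn X ≠ F := by
    intro h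
    have := hE.j2
    rw [h, hE.sq2] at this
    exact hE.ne2 this
  have neEF : E ≠ F := by
    intro h
    have := hE.m12
    rw [h, hE.sq2] at this
    exact hE.ne2 this
  have hAP : ∀ i, adj S.c i = ∑ j, P j i • EE j := by
    intro i
    rw [hs3]
    fin_cases i
    · change adj S.c 0 = (1 : ℂ) • Jn X + (1 : ℂ) • E + (1 : ℂ) • F
      rw [one_smul, one_smul, one_smul, hE.sum, hA0]
    · change adj S.c 1 = k • Jn X + r • E + s • F
      exact hA1
    · change adj S.c 2 = l • Jn X + (-(1 + r)) • E + (-(1 + s)) • F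
      exact hA2
  refine ⟨Equiv.refl _, EE, P, P, ?_, ?_, rfl, hAP, ?_, rfl⟩
  · intro i j hij
    have h012 : ∀ i : Fin (2 + 1), i = 0 ∨ i = 1 ∨ i = 2 := by decide
    rcases h012 i with rfl | rfl | rfl <;> rcases h012 j with rfl | rfl | rfl
    · rfl
    · exact absurd hij neJE
    · exact absurd hij neJF
    · exact absurd hij.symm neJE
    · rfl
    · exact absurd hij neEF
    · exact absurd hij.symm neJF
    · exact absurd hij.symm neEF
    · rfl
  · intro e
    rw [prim_iff h_adj hE u]
    constructor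
    · rintro (rfl | rfl | rfl)
      · exact ⟨0, rfl⟩
      · exact ⟨1, rfl⟩
      · exact ⟨2, rfl⟩
    · rintro ⟨j, rfl⟩
      have h012 : ∀ i : Fin (2 + 1), i = 0 ∨ i = 1 ∨ i = 2 := by decide
      rcases h012 j with rfl | rfl | rfl
      · exact Or.inl rfl
      · exact Or.inr (Or.inl rfl)
      · exact Or.inr (Or.inr rfl)
  · intro i
    rw [hs3]
    simp only [Equiv.refl_apply]
    rw [hA1, hA2, hA0, ← hE.sum, hN]
    have hN' : (1 + k + l : ℂ) ≠ 0 := by rw [← hN]; exact hn
    apply smul_right_injective _ hN'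
    simp only
    rw [smul_smul, mul_inv_cancel₀ hN', one_smul]
    have h012 : ∀ i : Fin (2 + 1), i = 0 ∨ i = 1 ∨ i = 2 := by decide
    rcases h012 i with rfl | rfl | rfl
    · change (1 + k + l) • Jn X = (1 : ℂ) • (Jn X + E + F) + (1 : ℂ) • (k • Jn X + r • E + s • F) +
        (1 : ℂ) • (l • Jn X + (-(1 + r)) • E + (-(1 + s)) • F)
      module
    · change (1 + k + l) • E = k • (Jn X + E + F) + r • (k • Jn X + r • E + s • F) +
        s • (l • Jn X + (-(1 + r)) • E + (-(1 + s)) • F)
      have z1 : k • (Jn X + E + F) + r • (k • Jn X + r • E + s • F) +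
        s • (l • Jn X + (-(1 + r)) • E + (-(1 + s)) • F) =
        (k + r * k + s * l) • Jn X + (k + r * r - (1 + r) * s) • E +
          (k + s * r - (1 + s) * s) • F := by module
      rw [z1, e1, q11, q21]
      simp
    · change (1 + k + l) • F = l • (Jn X + E + F) + (-(1 + r)) • (k • Jn X + r • E + s • F) +
        (-(1 + s)) • (l • Jn X + (-(1 + r)) • E + (-(1 + s)) • F)
      have z1 : l • (Jn X + E + F) + (-(1 + r)) • (k • Jn X + r • E + s • F) +
        (-(1 + s)) • (l • Jn X + (-(1 + r)) • E + (-(1 + s)) • F) =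
        (-(k + r * k + s * l)) • Jn X + (l - r * (1 + r) + (1 + r) * (1 + s)) • E +
          (l - s * (1 + r) + (1 + s) * (1 + s)) • F := by module
      rw [z1, e1, q12, q22]
      simp

end

end FV

end Pool.Agent.Y649.ETR
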