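import Pool.Agent.Y649.ETR.Stm

/-!
# Assembly of the project ETR
-/

namespace Pool.Agent.Y649.ETR

open Finset Pool.Agent.Results.MP_44674b_co.WreathExact

section

variable {X : Type} [Fintype X] [DecidableEq X]

/-- there is a nonzero vector supported on `Γ_i(u)` in the eigenspace of `E` -/
def Mod (S : SymScheme X 2) (u : X) (i : Fin (2 + 1)) (E : Matrix X X ℂ) : Prop :=
  ∃ v : X → ℂ, v ≠ 0 ∧ (∀ x, S.c u x ≠ i → v x = 0) ∧ E.mulVec v = v

lemma not_mod {S : SymScheme X 2} {u : X} {i : Fin (2 + 1)} {E : Matrix X X ℂ}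
    (h : ¬ Mod S u i E) (v : X → ℂ) (hv : ∀ x, S.c u x ≠ i → v x = 0) (hE : E.mulVec v = v) :
    v = 0 := by
  by_contra h0
  exact h ⟨v, h0, hv, hE⟩

/-- primitive exactly triply regular two-class schemes are formally self-dual -/
theorem two_prim (h_eig : S_EIG) (h_val : S_FSDVAL) (h_row : S_ROW) (h_col : S_COL)
    (h_dims : S_DIMS) (S : SymScheme X 2) (hp : Prim2 S) (hS : S.ExactlyTriplyRegular) :
    S.FormallySelfDual := by
  obtain ⟨E1, E2, hE⟩ := h_eig X S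
  obtain ⟨u, _, _⟩ := S.surj 0
  obtain ⟨hT, -, hD⟩ := hS
  have r1 : ¬ (Mod S u 1 E1 ∧ Mod S u 1 E2) := by
    rintro ⟨⟨v, v0, vs, vE⟩, ⟨w, w0, ws, wE⟩⟩
    exact h_row X S hp hT E1 E2 hE u 1 (by decide) v w v0 w0 vs ws vE wE
  have r2 : ¬ (Mod S u 2 E1 ∧ Mod S u 2 E2) := by
    rintro ⟨⟨v, v0, vs, vE⟩, ⟨w, w0, ws, wE⟩⟩
    exact h_row X S hp hT E1 E2 hE u 2 (by decide) v w v0 w0 vs ws vE wE
  have c1 : ¬ (Mod S u 1 E1 ∧ Mod S u 2 E1) := by
    rintro ⟨⟨v, v0, vs, vE⟩, ⟨w, w0, ws, wE⟩⟩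
    exact h_col X S hp hD E1 E2 hE u v w v0 w0 vs ws vE wE
  have c2 : ¬ (Mod S u 1 E2 ∧ Mod S u 2 E2) := by
    rintro ⟨⟨v, v0, vs, vE⟩, ⟨w, w0, ws, wE⟩⟩
    exact h_col X S hp hD E2 E1 hE.swap u v w v0 w0 vs ws vE wE
  by_cases h : ¬ Mod S u 1 E2 ∧ ¬ Mod S u 2 E1
  · exact h_val X S E1 E2 hE u (h_dims X S E1 E2 hE u 1 2 (by decide) (by decide) (by decide)
      (fun v hv hv' => not_mod h.1 v hv hv') (fun v hv hv' => not_mod h.2 v hv hv'))
  · have h' : ¬ Mod S u 1 E1 ∧ ¬ Mod S u 2 E2 := by tauto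
    exact h_val X S E2 E1 hE.swap u (h_dims X S E2 E1 hE.swap u 1 2 (by decide) (by decide)
      (by decide) (fun v hv hv' => not_mod h'.1 v hv hv') (fun v hv hv' => not_mod h'.2 v hv hv'))

/-- classification in the two-class case -/
theorem two_class (h_eig : S_EIG) (h_val : S_FSDVAL) (h_row : S_ROW) (h_col : S_COL)
    (h_dims : S_DIMS) (h_imp : S_IMPRIM) (h_blk : S_BLOCKS) (S : SymScheme X 2) :
    (S.ExactlyTriplyRegular ∧ ¬ S.FormallySelfDual) ↔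
      ∃ i a b, a ≠ b ∧ Blocks S i a b := by
  constructor
  · rintro ⟨hS, hF⟩
    have hp : ¬ Prim2 S := fun hp => hF (two_prim h_eig h_val h_row h_col h_dims S hp hS)
    obtain ⟨i, a, b, hb⟩ := h_imp X S hp
    refine ⟨i, a, b, ?_, hb⟩
    intro hab
    exact hF ((h_blk X S i a b hb).2.mpr hab)
  · rintro ⟨i, a, b, hab, hb⟩
    exact ⟨(h_blk X S i a b hb).1, fun hF => hab ((h_blk X S i a b hb).2.mp hF)⟩

end

/-- wreath products -/
theorem wr_main (h_wr : S_WR) (h_tri : S_TRIPLY) (h_star : S_WSTAR) (h_delta : S_WDELTA)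
    (X Y : Type) [Fintype X] [DecidableEq X] [Fintype Y] [DecidableEq Y]
    (d e : ℕ) (S : SymScheme X d) (T : SymScheme Y e) :
    ∃ R : SymScheme (X × Y) (d + e), R.c = wrc S.c T.c ∧
      (R.ExactlyTriplyRegular ↔ S.ExactlyTriplyRegular ∧ T.ExactlyTriplyRegular) := by
  obtain ⟨R, hR⟩ := h_wr X Y d e S T
  refine ⟨R, hR, ?_⟩
  have key : ∀ (Z : Type) [Fintype Z] [DecidableEq Z] (m : ℕ) (U : SymScheme Z m),
      U.ExactlyTriplyRegular ↔ (WStar U.c ≤ WDelta U.c ∧ WDelta U.c ≤ WStar U.c) := by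
    intro Z _ _ m U
    constructor
    · intro h; exact h.2
    · intro h; exact ⟨(h_tri Z m U).mpr h.1, h⟩
  rw [key, key, key, hR, h_star X Y d e S T, h_delta X Y d e S T]
  tauto

end Pool.Agent.Y649.ETR
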