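import Pool.Agent.Y649.ETR.Stm

namespace Pool.Agent.Y649.ETR

open Finset Pool.Agent.Results.MP_44674b_co.WreathExact

section

variable {X : Type} [Fintype X] [DecidableEq X] {d : ℕ}

lemma mul_apply_eq (S : SymScheme X d) (φ ψ : Fin (d + 1) → ℂ) (x y : X) :
    ∑ z, φ (S.c x z) * ψ (S.c z y) =
      ∑ i, ∑ j, φ i * ψ j *
        ((univ.filter fun z => S.c x z = i ∧ S.c z y = j).card : ℂ) := by
  have h1 : ∀ i j, ((univ.filter fun z => S.c x z = i ∧ S.c z y = j).card : ℂ) =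
      ∑ z, (if S.c x z = i ∧ S.c z y = j then (1 : ℂ) else 0) := fun i j => by
    rw [Finset.sum_boole]
  simp only [h1, Finset.mul_sum]
  rw [Finset.sum_congr rfl fun i _ => Finset.sum_comm]
  rw [Finset.sum_comm]
  refine Finset.sum_congr rfl fun z _ => ?_
  rw [Finset.sum_eq_single (S.c x z), Finset.sum_eq_single (S.c z y)]
  · simp
  · intro j _ hj
    rw [if_neg (fun h => hj h.2.symm), mul_zero]
  · intro h; exact absurd (Finset.mem_univ _) h
  · intro i _ hi
    refine Finset.sum_eq_zero fun j _ => ?_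
    rw [if_neg (fun h => hi h.1.symm), mul_zero]
  · intro h; exact absurd (Finset.mem_univ _) h

theorem mul : S_MUL := by
  intro X _ _ d S f g hf hg
  obtain ⟨φ, hφ⟩ := bm_iff.mp hf
  obtain ⟨ψ, hψ⟩ := bm_iff.mp hg
  have key : ∀ (φ ψ : Fin (d + 1) → ℂ) (x y x' y' : X), S.c x y = S.c x' y' →
      ∑ z, φ (S.c x z) * ψ (S.c z y) = ∑ z, φ (S.c x' z) * ψ (S.c z y') := by
    intro φ ψ x y x' y' h
    rw [mul_apply_eq, mul_apply_eq]
    refine Finset.sum_congr rfl fun i _ => Finset.sum_congr rfl fun j _ => ?_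
    rw [S.regular i j x y x' y' h]
  have hfg : ∀ x y, (f * g) x y = ∑ z, φ (S.c x z) * ψ (S.c z y) := fun x y => by
    rw [Matrix.mul_apply]
    exact Finset.sum_congr rfl fun z _ => by rw [hφ, hψ]
  have hgf : ∀ x y, (g * f) x y = ∑ z, ψ (S.c x z) * φ (S.c z y) := fun x y => by
    rw [Matrix.mul_apply]
    exact Finset.sum_congr rfl fun z _ => by rw [hφ, hψ]
  constructor
  · classical
    rw [bm_iff]
    refine ⟨fun i => if h : ∃ p : X × X, S.c p.1 p.2 = i then
      (f * g) h.choose.1 h.choose.2 else 0, fun x y => ?_⟩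
    have h : ∃ p : X × X, S.c p.1 p.2 = S.c x y := ⟨(x, y), rfl⟩
    simp only [dif_pos h]
    rw [hfg, hfg]
    exact key φ ψ _ _ _ _ h.choose_spec.symm
  · ext x y
    rw [hfg, hgf]
    rw [key ψ φ x y y x (S.symm x y)]
    refine Finset.sum_congr rfl fun z _ => ?_
    rw [S.symm y z, S.symm z x, mul_comm]

theorem triply : S_TRIPLY := by
  intro X _ _ d S
  constructor
  · intro hT
    rw [WStar, Submodule.span_le]
    rintro _ ⟨L, hL, M, hM, N, hN, rfl⟩
    refine star_span (WDelta S.c) (Set.range (adj S.c)) ?_ L hL M hM N hN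
    rintro _ ⟨i, rfl⟩ _ ⟨j, rfl⟩ _ ⟨k, rfl⟩
    classical
    rw [wdelta_iff]
    refine ⟨fun a b e => if h : ∃ p : X × X × X, S.c p.1 p.2.1 = a ∧ S.c p.1 p.2.2 = b ∧
      S.c p.2.1 p.2.2 = e then
        Star (adj S.c i) (adj S.c j) (adj S.c k) h.choose.1 h.choose.2.1 h.choose.2.2 else 0,
      fun x y z => ?_⟩
    have h : ∃ p : X × X × X, S.c p.1 p.2.1 = S.c x y ∧ S.c p.1 p.2.2 = S.c x z ∧
      S.c p.2.1 p.2.2 = S.c y z := ⟨(x, y, z), rfl, rfl, rfl⟩
    simp only [dif_pos h]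
    rw [star_adj, star_adj]
    have h1 := h.choose_spec
    rw [hT i j k x y z h.choose.1 h.choose.2.1 h.choose.2.2 h1.1.symm h1.2.1.symm h1.2.2.symm]
  · intro hW i j k x y z x' y' z' h1 h2 h3
    have hm : Star (adj S.c i) (adj S.c j) (adj S.c k) ∈ WDelta S.c :=
      hW (star_mem (Submodule.subset_span ⟨i, rfl⟩) (Submodule.subset_span ⟨j, rfl⟩)
        (Submodule.subset_span ⟨k, rfl⟩))
    have := wdelta_const hm h1 h2 h3
    rw [star_adj, star_adj] at this
    exact_mod_cast this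

end

end Pool.Agent.Y649.ETR
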