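import Pool.Agent.Y649.ETR.Stm

namespace Pool.Agent.Y649.ETR

open Finset Matrix Pool.Agent.Results.MP_44674b_co.WreathExact

lemma ex_reg {X : Type} [Fintype X] [DecidableEq X] {d : ℕ} (S : SymScheme X d) {x y x' y' : X}
    (z : X) (h : S.c x y = S.c x' y') : ∃ z', S.c x' z' = S.c x z ∧ S.c z' y' = S.c z y := by
  have h1 := S.regular (S.c x z) (S.c z y) x y x' y' h
  have h2 : z ∈ univ.filter fun t => S.c x t = S.c x z ∧ S.c t y = S.c z y := by simp
  have h3 : 0 < (univ.filter fun t => S.c x' t = S.c x z ∧ S.c t y' = S.c z y).card := by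
    rw [← h1]; exact Finset.card_pos.mpr ⟨z, h2⟩
  obtain ⟨z', hz'⟩ := Finset.card_pos.mp h3
  exact ⟨z', (Finset.mem_filter.mp hz').2⟩

theorem nbr : S_NBR := by
  intro X _ _ S hp u i j hi hj hij H
  obtain ⟨x0, y0, z0, h1, h2, h3⟩ := hp i j hi hj hij
  obtain ⟨x1, y1, z1, k1, k2, k3⟩ := hp j i hj hi hij.symm
  obtain ⟨z, hz, -⟩ := ex_reg S (x := x0) (y := x0) (x' := u) (y' := u) z0
    (by rw [(S.diag x0 x0).mpr rfl, (S.diag u u).mpr rfl])
  rw [h3] at hz
  obtain ⟨x, hx, hxz⟩ := ex_reg S (x := x0) (y := z0) (x' := u) (y' := z) y0 (by rw [h3, hz])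
  rw [h1] at hx
  rw [h2] at hxz
  obtain ⟨y, hy, hyz⟩ := ex_reg S (x := x1) (y := y1) (x' := u) (y' := z) z1 (by rw [k1, hz])
  rw [k3] at hy
  rw [S.symm z1 y1, k2] at hyz
  have := H x y z hx hy hz hxz
  rw [hyz] at this
  exact hij this.symm

theorem row (h_adj : S_EIGADJ) : S_ROW := by
  classical
  intro X _ _ S hp hT E F hE u i hi v w v0 w0 vs ws vE wF
  have h3 : ∀ i : Fin (2 + 1), i ≠ 0 → ∃ j, j ≠ 0 ∧ i ≠ j := by decide
  obtain ⟨j, hj0, hij⟩ := h3 i hi
  let H : X → X → ℕ := fun x y =>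
    (univ.filter fun z => S.c u z = j ∧ S.c x z = i ∧ S.c y z = i).card
  let η : Fin (2 + 1) → ℂ := fun k =>
    if h : ∃ p : X × X, S.c u p.1 = i ∧ S.c u p.2 = i ∧ S.c p.1 p.2 = k then
      (H h.choose.1 h.choose.2 : ℂ) else 0
  have hη : ∀ x y, S.c u x = i → S.c u y = i → (H x y : ℂ) = η (S.c x y) := by
    intro x y hx hy
    have h : ∃ p : X × X, S.c u p.1 = i ∧ S.c u p.2 = i ∧ S.c p.1 p.2 = S.c x y :=
      ⟨(x, y), hx, hy, rfl⟩
    simp only [η, dif_pos h]
    have h1 := h.choose_spec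
    have h2 := hT j i i u x y u h.choose.1 h.choose.2 (by rw [hx, h1.1]) (by rw [hy, h1.2.1])
      h1.2.2.symm
    exact_mod_cast h2
  let N : Matrix X X ℂ := fun x y => η (S.c x y)
  have hN : N ∈ boseMesner S.c := bm_iff.mpr ⟨η, fun x y => rfl⟩
  obtain ⟨a, b, e, hab⟩ := (h_adj X S E F hE).1 N hN
  obtain ⟨a', b', e', hA⟩ := (h_adj X S E F hE).1 (adj S.c i) (Submodule.subset_span ⟨i, rfl⟩)
  have key : ∀ (t : X → ℂ) (θ : ℂ), (∀ x, S.c u x ≠ i → t x = 0) → adj S.c i *ᵥ t = θ • t →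
      ∀ x, S.c u x = i → (N *ᵥ t) x = 0 := by
    intro t θ ts hθ x hx
    have e1 : (N *ᵥ t) x = ∑ y, (H x y : ℂ) * t y := by
      simp only [Matrix.mulVec, dotProduct]
      refine Finset.sum_congr rfl fun y _ => ?_
      by_cases hy : S.c u y = i
      · rw [hη x y hx hy]
      · rw [ts y hy, mul_zero, mul_zero]
    have e2 : ∀ y, (H x y : ℂ) = ∑ z, (if S.c u z = j ∧ S.c x z = i then (1 : ℂ) else 0) *
        (if S.c z y = i then 1 else 0) := by
      intro y
      rw [← Finset.sum_boole]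
      refine Finset.sum_congr rfl fun z _ => ?_
      rw [S.symm y z]
      by_cases q1 : S.c u z = j <;> by_cases q2 : S.c x z = i <;> by_cases q3 : S.c z y = i <;>
        simp [q1, q2, q3]
    rw [e1]
    simp only [e2, Finset.sum_mul]
    rw [Finset.sum_comm]
    refine Finset.sum_eq_zero fun z _ => ?_
    by_cases hz : S.c u z = j ∧ S.c x z = i
    · have e3 := congrFun hθ z
      rw [Pi.smul_apply, ts z (by rw [hz.1]; exact hij.symm), smul_zero] at e3
      simp only [Matrix.mulVec, dotProduct, adj] at e3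
      rw [if_pos hz]
      simpa using e3
    · rw [if_neg hz]
      simp
  have Jt : ∀ {E' F' : Matrix X X ℂ}, IsEig S E' F' → ∀ {t : X → ℂ}, E' *ᵥ t = t →
      Jn X *ᵥ t = 0 ∧ F' *ᵥ t = 0 := by
    intro E' F' hE' t ht
    constructor
    · rw [← ht, Matrix.mulVec_mulVec, hE'.j1, Matrix.zero_mulVec]
    · rw [← ht, Matrix.mulVec_mulVec, hE'.m21, Matrix.zero_mulVec]
  have pick : ∀ (t : X → ℂ) (θ : ℂ), t ≠ 0 → (∀ x, S.c u x ≠ i → t x = 0) →
      (∀ x, S.c u x = i → (θ • t) x = 0) → θ = 0 := by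
    intro t θ t0 ts h
    obtain ⟨x, hx⟩ := Function.ne_iff.mp t0
    have hx' : S.c u x = i := by
      by_contra hne
      exact hx (ts x hne)
    have := h x hx'
    rw [Pi.smul_apply, smul_eq_mul] at this
    rcases mul_eq_zero.mp this with h' | h'
    · exact h'
    · exact absurd h' hx
  have hb : b = 0 := by
    have q := Jt hE vE
    have e1 : N *ᵥ v = b • v := by
      rw [hab, Matrix.add_mulVec, Matrix.add_mulVec, Matrix.smul_mulVec, Matrix.smul_mulVec,
        Matrix.smul_mulVec, q.1, q.2, vE]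
      simp
    have e2 : adj S.c i *ᵥ v = b' • v := by
      rw [hA, Matrix.add_mulVec, Matrix.add_mulVec, Matrix.smul_mulVec, Matrix.smul_mulVec,
        Matrix.smul_mulVec, q.1, q.2, vE]
      simp
    apply pick v b v0 vs
    intro x hx
    rw [← e1]
    exact key v b' vs e2 x hx
  have he : e = 0 := by
    have q := Jt hE.swap wF
    have e1 : N *ᵥ w = e • w := by
      rw [hab, Matrix.add_mulVec, Matrix.add_mulVec, Matrix.smul_mulVec, Matrix.smul_mulVec,
        Matrix.smul_mulVec, q.1, q.2, wF]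
      simp
    have e2 : adj S.c i *ᵥ w = e' • w := by
      rw [hA, Matrix.add_mulVec, Matrix.add_mulVec, Matrix.smul_mulVec, Matrix.smul_mulVec,
        Matrix.smul_mulVec, q.1, q.2, wF]
      simp
    apply pick w e w0 ws
    intro x hx
    rw [← e1]
    exact key w e' ws e2 x hx
  have hconst : ∀ x y x' y', η (S.c x y) = η (S.c x' y') := by
    intro x y x' y'
    have e1 : N x y = N x' y' := by
      rw [hab, hb, he]
      simp only [zero_smul, add_zero, Matrix.smul_apply]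
      rfl
    exact e1
  refine nbr X S hp u i j hi hj0 hij ?_
  intro x y z hx hy hz hxz
  have e1 : H x y = H x x := by
    have : (H x y : ℂ) = (H x x : ℂ) := by
      rw [hη x y hx hy, hη x x hx hx]
      exact hconst _ _ _ _
    exact_mod_cast this
  have e2 : (univ.filter fun z => S.c u z = j ∧ S.c x z = i ∧ S.c y z = i) =
      (univ.filter fun z => S.c u z = j ∧ S.c x z = i ∧ S.c x z = i) := by
    apply Finset.eq_of_subset_of_card_le
    · intro t ht
      simp only [Finset.mem_filter, Finset.mem_univ, true_and] at ht ⊢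
      exact ⟨ht.1, ht.2.1, ht.2.1⟩
    · exact e1.ge
  have e3 : z ∈ (univ.filter fun z => S.c u z = j ∧ S.c x z = i ∧ S.c y z = i) := by
    rw [e2]
    simp [hz, hxz]
  exact (Finset.mem_filter.mp e3).2.2.2

end Pool.Agent.Y649.ETR
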