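import Pool.Agent.Y649.ETR.Top

/-!
# Existence of the two-class examples
-/

namespace Pool.Agent.Y649.ETR

open Finset Pool.Agent.Results.MP_44674b_co.WreathExact

theorem two_exists (a b : ℕ) (ha : 2 ≤ a) (hb : 2 ≤ b) :
    ∃ (X : Type) (_ : Fintype X) (_ : DecidableEq X) (S : SymScheme X 2)
      (f : X ≃ Fin a × Fin b), ∀ x y, x ≠ y → (S.c x y = 1 ↔ (f x).2 = (f y).2) := by
  have hs : ∀ i : Fin (0 + 2), 2 ≤ (![a, b] : Fin (0 + 2) → ℕ) i := by
    intro i
    fin_cases i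
    · exact ha
    · exact hb
  refine ⟨(i : Fin (0 + 2)) → Fin ((![a, b] : Fin (0 + 2) → ℕ) i), inferInstance, inferInstance,
    wreath (n := 0) ![a, b] hs,
    piFinTwoEquiv (fun i => Fin ((![a, b] : Fin (0 + 2) → ℕ) i)), ?_⟩
  intro x y hxy
  have h1 : Pool.Agent.Results.MP_44674b_co.WreathExact.col (n := 0) ![a, b] x y ≤ 1 ↔ x 1 = y 1 := by
    rw [col_le_iff]
    constructor
    · intro h; exact h 1 le_rfl
    · intro h i hi
      have : i = 1 := by
        apply Fin.ext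
        have := i.isLt
        have h2 : (1 : Fin (0 + 2 + 1)).val = 1 := rfl
        have h3 : (1 : Fin (0 + 2)).val = 1 := rfl
        omega
      subst this
      exact h
  have h2 : Pool.Agent.Results.MP_44674b_co.WreathExact.col (n := 0) ![a, b] x y ≠ 0 := fun h => hxy (((col_ultra _).diag x y).mp h)
  have h3 : ∀ k : Fin (0 + 2 + 1), k ≠ 0 → (k = 1 ↔ k ≤ 1) := by decide
  change Pool.Agent.Results.MP_44674b_co.WreathExact.col (n := 0) ![a, b] x y = 1 ↔ x 1 = y 1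
  rw [h3 _ h2, h1]

/-- the classification in explicit form -/
theorem two_explicit (X : Type) [Fintype X] [DecidableEq X] (S : SymScheme X 2) :
    (S.ExactlyTriplyRegular ∧ ¬ S.FormallySelfDual) ↔
      ∃ (i : Fin 3) (a b : ℕ) (f : X ≃ Fin a × Fin b), i ≠ 0 ∧ 2 ≤ a ∧ 2 ≤ b ∧ a ≠ b ∧
        ∀ x y, x ≠ y → (S.c x y = i ↔ (f x).2 = (f y).2) := by
  rw [two]
  constructor
  · rintro ⟨i, a, b, hab, hi, ha, hb, f, hf⟩
    exact ⟨i, a, b, f, hi, ha, hb, hab, hf⟩
  · rintro ⟨i, a, b, f, hi, ha, hb, hab, hf⟩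
    exact ⟨i, a, b, hab, hi, ha, hb, f, hf⟩

end Pool.Agent.Y649.ETR
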