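import Pool.Agent.Y649.ETR.Defs

/-!
# Statements of the jobs of the project ETR
-/

namespace Pool.Agent.Y649.ETR

open Finset Pool.Agent.Results.MP_44674b_co.WreathExact

/-- G: general facts on symmetric schemes -/
def S_MUL : Prop := ∀ (X : Type) [Fintype X] [DecidableEq X] (d : ℕ) (S : SymScheme X d)
  (f g : Matrix X X ℂ), f ∈ boseMesner S.c → g ∈ boseMesner S.c →
    f * g ∈ boseMesner S.c ∧ f * g = g * f

def S_TRIPLY : Prop := ∀ (X : Type) [Fintype X] [DecidableEq X] (d : ℕ) (S : SymScheme X d),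
  S.TriplyRegular ↔ WStar S.c ≤ WDelta S.c

/-- formal self-duality: an enumeration of the primitive idempotents whose traces are the
valencies -/
def S_FSD : Prop := ∀ (X : Type) [Fintype X] [DecidableEq X] (d : ℕ) (S : SymScheme X d),
  S.FormallySelfDual → ∃ (σ : Equiv.Perm (Fin (d + 1))) (E : Fin (d + 1) → Matrix X X ℂ),
    Function.Injective E ∧ (∀ e, S.IsPrimitiveIdempotent e ↔ ∃ j, E j = e) ∧
    E 0 = Jn X ∧ σ 0 = 0 ∧ ∀ i x, (val S.c x (σ i) : ℂ) = Matrix.trace (E i)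

/-- relabelling -/
def S_RELABEL : Prop := ∀ (X : Type) [Fintype X] [DecidableEq X] (d : ℕ) (S S' : SymScheme X d)
  (τ : Equiv.Perm (Fin (d + 1))), (∀ x y, S'.c x y = τ (S.c x y)) →
    (S.ExactlyTriplyRegular → S'.ExactlyTriplyRegular) ∧
    (S.FormallySelfDual → S'.FormallySelfDual)

/-- ultrametric schemes: formal self-duality means that the ball sizes satisfy
`b_i b_{d-i} = |X|` -/
def S_ULTRA : Prop := ∀ (X : Type) [Fintype X] [DecidableEq X] (d : ℕ)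
  (c : X → X → Fin (d + 1)) (h : Ultra c) (hs : ∀ i, ∃ x y, c x y = i) (x0 : X),
    (h.scheme hs).FormallySelfDual ↔
      ∀ i : Fin (d + 1), bsize c x0 i * bsize c x0 (Fin.rev i) = Fintype.card X

/-- iterated wreath products of complete graphs: palindromic sizes -/
def S_PAL : Prop := ∀ (n : ℕ) (s : Fin (n + 2) → ℕ) (hs : ∀ i, 2 ≤ s i),
  (wreath s hs).FormallySelfDual ↔ ∀ i : Fin (n + 2), s (Fin.rev i) = s i

/-- general wreath products -/
def S_WR : Prop := ∀ (X Y : Type) [Fintype X] [DecidableEq X] [Fintype Y] [DecidableEq Y]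
  (d e : ℕ) (S : SymScheme X d) (T : SymScheme Y e),
    ∃ R : SymScheme (X × Y) (d + e), R.c = wrc S.c T.c

def S_WSTAR : Prop := ∀ (X Y : Type) [Fintype X] [DecidableEq X] [Fintype Y] [DecidableEq Y]
  (d e : ℕ) (S : SymScheme X d) (T : SymScheme Y e),
    WStar (wrc S.c T.c) ≤ WDelta (wrc S.c T.c) ↔ (WStar S.c ≤ WDelta S.c ∧ WStar T.c ≤ WDelta T.c)

def S_WDELTA : Prop := ∀ (X Y : Type) [Fintype X] [DecidableEq X] [Fintype Y] [DecidableEq Y]
  (d e : ℕ) (S : SymScheme X d) (T : SymScheme Y e),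
    WDelta (wrc S.c T.c) ≤ WStar (wrc S.c T.c) ↔ (WDelta S.c ≤ WStar S.c ∧ WDelta T.c ≤ WStar T.c)

/-- the wreath product of a scheme on `X` with a larger complete graph is not formally
self-dual -/
def S_WNOT : Prop := ∀ (X Y : Type) [Fintype X] [DecidableEq X] [Fintype Y] [DecidableEq Y]
  (d : ℕ) (S : SymScheme X d) (T : SymScheme Y 1) (R : SymScheme (X × Y) (d + 1)),
    R.c = wrc S.c T.c → 2 ≤ Fintype.card X → Fintype.card X < Fintype.card Y →
      ¬ R.FormallySelfDual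

/-- two-class schemes: existence and properties of the primitive idempotents -/
def S_EIG : Prop := ∀ (X : Type) [Fintype X] [DecidableEq X] (S : SymScheme X 2),
  ∃ E1 E2 : Matrix X X ℂ, IsEig S E1 E2

def S_EIGADJ : Prop := ∀ (X : Type) [Fintype X] [DecidableEq X] (S : SymScheme X 2)
  (E1 E2 : Matrix X X ℂ), IsEig S E1 E2 →
    (∀ M ∈ boseMesner S.c, ∃ a b e : ℂ, M = a • Jn X + b • E1 + e • E2) ∧
    (∀ i : Fin (2 + 1), i ≠ 0 → ∀ u, ∃ b e : ℂ,
      adj S.c i = (val S.c u i : ℂ) • Jn X + b • E1 + e • E2 ∧ b ≠ e)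

/-- a two-class scheme with `k_1 = m_1` is formally self-dual -/
def S_FSDVAL : Prop := ∀ (X : Type) [Fintype X] [DecidableEq X] (S : SymScheme X 2)
  (E1 E2 : Matrix X X ℂ), IsEig S E1 E2 → ∀ u, (val S.c u 1 : ℂ) = Matrix.trace E1 →
    S.FormallySelfDual

def S_NBR : Prop := ∀ (X : Type) [Fintype X] [DecidableEq X] (S : SymScheme X 2), Prim2 S →
  ∀ (u : X) (i j : Fin (2 + 1)), i ≠ 0 → j ≠ 0 → i ≠ j →
    ¬ ∀ x y z, S.c u x = i → S.c u y = i → S.c u z = j → S.c x z = i → S.c y z = i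

def S_ROW : Prop := ∀ (X : Type) [Fintype X] [DecidableEq X] (S : SymScheme X 2), Prim2 S →
  S.TriplyRegular → ∀ (E1 E2 : Matrix X X ℂ), IsEig S E1 E2 →
    ∀ (u : X) (i : Fin (2 + 1)), i ≠ 0 → ∀ v w : X → ℂ, v ≠ 0 → w ≠ 0 →
      (∀ x, S.c u x ≠ i → v x = 0) → (∀ x, S.c u x ≠ i → w x = 0) →
      E1.mulVec v = v → E2.mulVec w = w → False

def S_COL : Prop := ∀ (X : Type) [Fintype X] [DecidableEq X] (S : SymScheme X 2), Prim2 S →
  WDelta S.c ≤ WStar S.c → ∀ (E1 E2 : Matrix X X ℂ), IsEig S E1 E2 →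
    ∀ (u : X) (v w : X → ℂ), v ≠ 0 → w ≠ 0 →
      (∀ x, S.c u x ≠ 1 → v x = 0) → (∀ x, S.c u x ≠ 2 → w x = 0) →
      E1.mulVec v = v → E1.mulVec w = w → False

def S_DIMS : Prop := ∀ (X : Type) [Fintype X] [DecidableEq X] (S : SymScheme X 2)
  (E1 E2 : Matrix X X ℂ), IsEig S E1 E2 →
    ∀ (u : X) (i j : Fin (2 + 1)), i ≠ 0 → j ≠ 0 → i ≠ j →
      (∀ v : X → ℂ, (∀ x, S.c u x ≠ i → v x = 0) → E2.mulVec v = v → v = 0) →
      (∀ v : X → ℂ, (∀ x, S.c u x ≠ j → v x = 0) → E1.mulVec v = v → v = 0) →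
      (val S.c u i : ℂ) = Matrix.trace E1

/-- non-primitive two-class schemes -/
def S_IMPRIM : Prop := ∀ (X : Type) [Fintype X] [DecidableEq X] (S : SymScheme X 2),
  ¬ Prim2 S → ∃ i a b, Blocks S i a b

def S_BLOCKS : Prop := ∀ (X : Type) [Fintype X] [DecidableEq X] (S : SymScheme X 2)
  (i : Fin (2 + 1)) (a b : ℕ), Blocks S i a b →
    S.ExactlyTriplyRegular ∧ (S.FormallySelfDual ↔ a = b)

end Pool.Agent.Y649.ETR
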