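import Pool.Agent.Y649.ETR.Main
import Pool.Agent.Y649.ETR.Col
import Pool.Agent.Y649.ETR.Eig
import Pool.Agent.Y649.ETR.FsdVal
import Pool.Agent.Y131.ETRFSD
import Pool.Agent.Y329.ETRBlk
import Pool.Agent.Y450.ETR.Ultra
import Pool.Agent.Y872.ETR.Rel
import Pool.Agent.Y944.ETR.Dims

/-!
# The two-class theorem
-/

namespace Pool.Agent.Y649.ETR

open Finset Pool.Agent.Results.MP_44674b_co.WreathExact

theorem s_eigadj : S_EIGADJ := Pool.Agent.Y944.ETR.main
theorem s_ultra : S_ULTRA := Pool.Agent.Y450.ETR.main Pool.Agent.Y131.ETRFSD.main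
theorem s_relabel : S_RELABEL := Pool.Agent.Y872.ETRRel.main
theorem s_blocks : S_BLOCKS := Pool.Agent.Y329.ETRBlk.blocks s_ultra s_relabel
theorem s_imprim : S_IMPRIM := Pool.Agent.Y329.ETRBlk.imprim
theorem s_dims : S_DIMS := Pool.Agent.Y944.ETR.dims s_eigadj
theorem s_row : S_ROW := row s_eigadj
theorem s_col : S_COL := col s_eigadj nbr
theorem s_val : S_FSDVAL := FV.main s_eigadj

/-- classification of the exactly triply regular two-class schemes which are not formally
self-dual -/
theorem two (X : Type) [Fintype X] [DecidableEq X] (S : SymScheme X 2) :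
    (S.ExactlyTriplyRegular ∧ ¬ S.FormallySelfDual) ↔ ∃ i a b, a ≠ b ∧ Blocks S i a b :=
  two_class Eig.main s_val s_row s_col s_dims s_imprim s_blocks S

end Pool.Agent.Y649.ETR
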