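import Pool.Agent.Y649.ETR.WPrim
import Pool.Agent.Y649.ETR.Main
import Pool.Agent.Y131.ETRWNOT
import Pool.Agent.Y146.ETR.WDelta
import Pool.Agent.Y659.ETRWR
import Pool.Agent.Y777.ETRW.Main

/-!
# Wreath products
-/

namespace Pool.Agent.Y649.ETR

open Finset Pool.Agent.Results.MP_44674b_co.WreathExact

theorem wr_top (X Y : Type) [Fintype X] [DecidableEq X] [Fintype Y] [DecidableEq Y] (d e : ℕ)
    (S : SymScheme X d) (T : SymScheme Y e) :
    ∃ R : SymScheme (X × Y) (d + e),
      (∀ p q, (p.2 = q.2 → (R.c p q).val = (S.c p.1 q.1).val) ∧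
        (p.2 ≠ q.2 → (R.c p q).val = d + (T.c p.2 q.2).val)) ∧
      (R.ExactlyTriplyRegular ↔ S.ExactlyTriplyRegular ∧ T.ExactlyTriplyRegular) ∧
      (Primitive S → Primitive T → 2 ≤ Fintype.card X → 2 ≤ Fintype.card Y →
        Fintype.card X ≠ Fintype.card Y → ¬ R.FormallySelfDual) ∧
      (e = 1 → 2 ≤ Fintype.card X → Fintype.card X < Fintype.card Y →
        ¬ R.FormallySelfDual) := by
  obtain ⟨R, hR, hE⟩ := wr_main Pool.Agent.Y659.ETRWR.main triply Pool.Agent.Y777.ETRW.main
    Pool.Agent.Y146.ETR.main X Y d e S T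
  refine ⟨R, ?_, hE, ?_, ?_⟩
  · intro p q
    constructor
    · intro h
      rw [hR]; simp [wrc, h]
    · intro h
      rw [hR]; simp [wrc, h]
  · intro hS hT hX hY hXY
    exact wprim X Y d e S T R hR hS hT hX hY hXY
  · intro he hX hXY
    subst he
    exact Pool.Agent.Y131.ETRWNOT.main Pool.Agent.Y131.ETRFSD.main X Y d S T R hR hX hXY

/-- the scheme of a complete graph -/
theorem complete_exists (m : ℕ) (hm : 2 ≤ m) :
    ∃ T : SymScheme (Fin m) 1, T.ExactlyTriplyRegular ∧ Primitive T := by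
  have h01 : ∀ i : Fin (1 + 1), i = 0 ∨ i = 1 := by decide
  have hle : ∀ i : Fin (1 + 1), i ≤ 1 := by decide
  let c : Fin m → Fin m → Fin (1 + 1) := fun x y => if x = y then 0 else 1
  have hdiag : ∀ x y, c x y = 0 ↔ x = y := by
    intro x y
    simp only [c]
    split_ifs with h
    · simp [h]
    · simp only [h, iff_false]; decide
  have hU : Ultra c := by
    refine ⟨hdiag, ?_, ?_, ?_⟩
    · intro x y
      simp only [c, eq_comm]
    · intro x y z
      by_cases h1 : c x y = 0
      · rw [(hdiag x y).mp h1]; exact le_max_right _ _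
      · have : c x y = 1 := (h01 _).resolve_left h1
        rw [this]
        exact (hle _).trans (le_max_left _ _)
    · intro i x x'
      rcases h01 i with rfl | rfl
      · have : ∀ x, (univ.filter fun y => c x y ≤ 0) = {x} := by
          intro x
          ext y
          simp only [Finset.mem_filter, Finset.mem_univ, true_and, Finset.mem_singleton,
            Fin.le_zero_iff, hdiag]
          exact eq_comm
        rw [this, this, Finset.card_singleton, Finset.card_singleton]
      · simp [hle]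
  have hs : ∀ i, ∃ x y, c x y = i := by
    intro i
    rcases h01 i with rfl | rfl
    · exact ⟨⟨0, by omega⟩, ⟨0, by omega⟩, (hdiag _ _).mpr rfl⟩
    · refine ⟨⟨0, by omega⟩, ⟨1, by omega⟩, (h01 _).resolve_left fun h => ?_⟩
      have := (hdiag _ _).mp h
      simp at this
  refine ⟨hU.scheme hs, hU.exact hs, ?_⟩
  intro I h0 _
  by_cases h1 : (1 : Fin (1 + 1)) ∈ I
  · right
    ext i
    rcases h01 i with rfl | rfl
    · simp [h0]
    · simp [h1]
  · left
    ext i
    rcases h01 i with rfl | rfl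
    · simp [h0]
    · simp [h1]

theorem inner_factor (X : Type) [Fintype X] [DecidableEq X] (d : ℕ) (S : SymScheme X d)
    (hS : S.ExactlyTriplyRegular) (hX : 2 ≤ Fintype.card X) (m : ℕ) (hm : Fintype.card X < m) :
    ∃ R : SymScheme (X × Fin m) (d + 1),
      (∀ x x' j, (R.c (x, j) (x', j)).val = (S.c x x').val) ∧
      R.ExactlyTriplyRegular ∧ ¬ R.FormallySelfDual := by
  obtain ⟨T, hT, -⟩ := complete_exists m (by omega)
  obtain ⟨R, hR, hE, -, hN⟩ := wr_top X (Fin m) d 1 S T
  refine ⟨R, ?_, hE.mpr ⟨hS, hT⟩, hN rfl hX (by rw [Fintype.card_fin]; exact hm)⟩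
  intro x x' j
  exact (hR (x, j) (x', j)).1 rfl

end Pool.Agent.Y649.ETR
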