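import Pool.Agent.Y649.ETR.Mul

/-!
# Wreath products of primitive schemes of different sizes are not formally self-dual
-/

namespace Pool.Agent.Y649.ETR

open Finset Pool.Agent.Results.MP_44674b_co.WreathExact

/-- A scheme is primitive if equality and the all relation are the only equivalence relations
which are unions of relations of the scheme. -/
def Primitive {X : Type} [Fintype X] [DecidableEq X] {d : ℕ} (S : SymScheme X d) : Prop :=
  ∀ I : Set (Fin (d + 1)), 0 ∈ I → (∀ x y z, S.c x y ∈ I → S.c y z ∈ I → S.c x z ∈ I) →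
    I = {0} ∨ I = Set.univ

def S_WPRIM : Prop := ∀ (X Y : Type) [Fintype X] [DecidableEq X] [Fintype Y] [DecidableEq Y]
  (d e : ℕ) (S : SymScheme X d) (T : SymScheme Y e) (R : SymScheme (X × Y) (d + e)),
    R.c = wrc S.c T.c → Primitive S → Primitive T → 2 ≤ Fintype.card X → 2 ≤ Fintype.card Y →
      Fintype.card X ≠ Fintype.card Y → ¬ R.FormallySelfDual

section

variable {Z : Type} [Fintype Z] [DecidableEq Z] {D : ℕ}

/-- the matrix of a union of relations -/
def fm (c : Z → Z → Fin (D + 1)) (I : Finset (Fin (D + 1))) : Matrix Z Z ℂ :=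
  fun p q => if c p q ∈ I then 1 else 0

lemma fm_mul_apply (R : SymScheme Z D) (I : Finset (Fin (D + 1))) (p q : Z) :
    (fm R.c I * fm R.c I) p q =
      ((univ.filter fun z => R.c p z ∈ I ∧ R.c z q ∈ I).card : ℂ) := by
  rw [Matrix.mul_apply, ← Finset.sum_boole]
  refine Finset.sum_congr rfl fun z _ => ?_
  simp only [fm]
  by_cases q1 : R.c p z ∈ I <;> by_cases q2 : R.c z q ∈ I <;> simp [q1, q2]

lemma fm_eq_sum (c : Z → Z → Fin (D + 1)) (I : Finset (Fin (D + 1)))
    (σ : Equiv.Perm (Fin (D + 1))) :
    fm c I = ∑ i, (if σ i ∈ I then (1 : ℂ) else 0) • adj c (σ i) := by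
  ext p q
  rw [Matrix.sum_apply, Finset.sum_eq_single (σ.symm (c p q))]
  · simp [fm, adj]
  · intro i _ hi
    have : c p q ≠ σ i := fun h => hi (by rw [h, Equiv.symm_apply_apply])
    simp [adj, this]
  · intro h; exact absurd (Finset.mem_univ _) h

theorem closed_dual (R : SymScheme Z D) (hF : R.FormallySelfDual) (I : Finset (Fin (D + 1)))
    (b : ℕ) (hb : 0 < b) (hI : I.Nonempty)
    (hcl : ∀ p q, (univ.filter fun z => R.c p z ∈ I ∧ R.c z q ∈ I).card =
      b * (if R.c p q ∈ I then 1 else 0)) :
    ∃ K : Finset (Fin (D + 1)), K.Nonempty ∧ ∀ p q,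
      b * (univ.filter fun z => R.c p z ∈ K ∧ R.c z q ∈ K).card =
        Fintype.card Z * (if R.c p q ∈ K then 1 else 0) := by
  classical
  obtain ⟨σ, E, P, Q, hinj, hprim, hE0, hA, hE, hPQ⟩ := hF
  subst hPQ
  obtain ⟨z0, _, _⟩ := R.surj 0
  have hN : (Fintype.card Z : ℂ) ≠ 0 := by
    have : 0 < Fintype.card Z := Fintype.card_pos_iff.mpr ⟨z0⟩
    exact_mod_cast this.ne'
  have hb' : (b : ℂ) ≠ 0 := by exact_mod_cast hb.ne'
  have hPE : ∀ i, R.IsPrimitiveIdempotent (E i) := fun i => (hprim _).mpr ⟨i, rfl⟩
  have hBM : ∀ i, E i ∈ boseMesner R.c := fun i => (hPE i).1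
  have orth : ∀ i j, i ≠ j → E i * E j = 0 := by
    intro i j hij
    have hcomm := (mul Z D R _ _ (hBM i) (hBM j)).2
    have hmem := (mul Z D R _ _ (hBM i) (hBM j)).1
    have hid : (E i * E j) * (E i * E j) = E i * E j := by
      calc (E i * E j) * (E i * E j) = E i * (E j * E i) * E j := by
            simp only [mul_assoc]
        _ = (E i * E i) * (E j * E j) := by rw [← hcomm]; simp only [mul_assoc]
        _ = E i * E j := by rw [(hPE i).2.1, (hPE j).2.1]
    have h1 := (hPE i).2.2.2 _ hmem hid (by rw [← mul_assoc, (hPE i).2.1])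
    have h2 := (hPE j).2.2.2 _ hmem hid (by
      rw [hcomm, ← mul_assoc, (hPE j).2.1])
    rcases h1 with h1 | h1
    · exact h1
    rcases h2 with h2 | h2
    · exact h2
    exact absurd (hinj (h1.symm.trans h2)) hij
  have sumE : ∀ (t : Fin (D + 1) → ℂ) (j : Fin (D + 1)), (∑ i, t i • E i) * E j = t j • E j := by
    intro t j
    rw [Finset.sum_mul, Finset.sum_eq_single j]
    · rw [smul_mul_assoc, (hPE j).2.1]
    · intro i _ hij
      rw [smul_mul_assoc, orth i j hij, smul_zero]
    · intro h; exact absurd (Finset.mem_univ _) h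
  let w : Fin (D + 1) → ℂ := fun i => if σ i ∈ I then 1 else 0
  let τ : Fin (D + 1) → ℂ := fun j => ∑ i, w i * P j i
  have hH : fm R.c I = ∑ j, τ j • E j := by
    rw [fm_eq_sum R.c I σ]
    have h1 : ∀ i, (if σ i ∈ I then (1 : ℂ) else 0) • adj R.c (σ i) =
        ∑ j, (w i * P j i) • E j := by
      intro i
      rw [hA i, Finset.smul_sum]
      exact Finset.sum_congr rfl fun j _ => by rw [smul_smul]
    rw [Finset.sum_congr rfl fun i _ => h1 i, Finset.sum_comm]
    exact Finset.sum_congr rfl fun j _ => by rw [← Finset.sum_smul]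
  have hHH : fm R.c I * fm R.c I = (b : ℂ) • fm R.c I := by
    ext p q
    rw [fm_mul_apply, hcl]
    simp only [fm, Matrix.smul_apply, smul_eq_mul]
    push_cast
    rfl
  have hτ : ∀ j, τ j = 0 ∨ τ j = b := by
    intro j
    have h1 : fm R.c I * E j = τ j • E j := by rw [hH]; exact sumE τ j
    have h2 : (fm R.c I * fm R.c I) * E j = (τ j * τ j) • E j := by
      rw [mul_assoc, h1, mul_smul_comm, h1, smul_smul]
    rw [hHH, smul_mul_assoc, h1, smul_smul] at h2
    have h3 : ((b : ℂ) * τ j - τ j * τ j) • E j = 0 := by rw [sub_smul, h2, sub_self]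
    rcases smul_eq_zero.mp h3 with h4 | h4
    · have : τ j * (τ j - b) = 0 := by linear_combination -h4
      rcases mul_eq_zero.mp this with h5 | h5
      · exact Or.inl h5
      · exact Or.inr (sub_eq_zero.mp h5)
    · exact absurd h4 (hPE j).2.2.1
  let F : Matrix Z Z ℂ := ∑ i, w i • E i
  have hww : ∀ i, w i * w i = w i := by
    intro i
    simp only [w]
    split_ifs <;> simp
  have hFF : F * F = F := by
    have h1 : F * F = ∑ j, (w j * w j) • E j := by
      conv_lhs => rw [show F * F = F * ∑ i, w i • E i from rfl, Finset.mul_sum]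
      refine Finset.sum_congr rfl fun j _ => ?_
      rw [mul_smul_comm, sumE w j, smul_smul]
    rw [h1]
    exact Finset.sum_congr rfl fun j _ => by rw [hww]
  let K : Finset (Fin (D + 1)) := univ.filter fun k => τ (σ.symm k) = b
  have hK : ∀ j, τ j = (b : ℂ) * (if σ j ∈ K then 1 else 0) := by
    intro j
    have : σ j ∈ K ↔ τ j = b := by simp [K]
    by_cases h : τ j = b
    · rw [if_pos (this.mpr h), mul_one, h]
    · rw [if_neg (fun h' => h (this.mp h')), mul_zero]
      exact (hτ j).resolve_right h
  have hFK : F = ((Fintype.card Z : ℂ)⁻¹ * b) • fm R.c K := by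
    have h1 : ∀ i, w i • E i = ∑ j, ((Fintype.card Z : ℂ)⁻¹ * (w i * P j i)) • adj R.c (σ j) := by
      intro i
      rw [hE i, smul_smul, Finset.smul_sum]
      refine Finset.sum_congr rfl fun j _ => ?_
      rw [smul_smul]
      congr 1
      ring
    change ∑ i, w i • E i = _
    rw [Finset.sum_congr rfl fun i _ => h1 i, Finset.sum_comm, fm_eq_sum R.c K σ,
      Finset.smul_sum]
    refine Finset.sum_congr rfl fun j _ => ?_
    rw [← Finset.sum_smul, smul_smul]
    congr 1
    rw [← Finset.mul_sum]
    have := hK j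
    simp only [τ] at this
    rw [this]
    ring
  have hc : ((Fintype.card Z : ℂ)⁻¹ * b) ≠ 0 := mul_ne_zero (inv_ne_zero hN) hb'
  have hGG : (b : ℂ) • (fm R.c K * fm R.c K) = (Fintype.card Z : ℂ) • fm R.c K := by
    rw [hFK, smul_mul_smul_comm] at hFF
    have h1 : ((Fintype.card Z : ℂ)⁻¹ * b) • (((Fintype.card Z : ℂ)⁻¹ * b) •
        (fm R.c K * fm R.c K)) = ((Fintype.card Z : ℂ)⁻¹ * b) • fm R.c K := by
      rw [smul_smul]; exact hFF
    have h2 := smul_right_injective _ hc h1
    have h3 := congrArg (fun M => (Fintype.card Z : ℂ) • M) h2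
    simp only [smul_smul] at h3
    rw [← mul_assoc, mul_inv_cancel₀ hN, one_mul] at h3
    exact h3
  refine ⟨K, ?_, ?_⟩
  · by_contra hne
    rw [Finset.not_nonempty_iff_eq_empty] at hne
    have h1 : fm R.c K = 0 := by
      ext p q
      simp [fm, hne]
    obtain ⟨k, hk⟩ := hI
    have h2 : F * E (σ.symm k) = w (σ.symm k) • E (σ.symm k) := sumE w _
    rw [hFK, h1, smul_zero, zero_mul] at h2
    have h3 : w (σ.symm k) = 1 := by simp [w, hk]
    rw [h3, one_smul] at h2
    exact (hPE _).2.2.1 h2.symm
  · intro p q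
    have h1 := congrFun (congrFun hGG p) q
    simp only [Matrix.smul_apply, smul_eq_mul] at h1
    rw [fm_mul_apply] at h1
    simp only [fm] at h1
    exact_mod_cast h1

end

theorem wprim : S_WPRIM := by
  classical
  intro X Y _ _ _ _ d e S T R hR hS hT hX hY hXY hF
  have hn : 0 < Fintype.card X := by omega
  have hm : 0 < Fintype.card Y := by omega
  obtain ⟨x0⟩ := Fintype.card_pos_iff.mp hn
  -- inner relations
  let I : Finset (Fin (d + e + 1)) := univ.filter fun i => i.val ≤ d
  have hRI : ∀ p q, R.c p q ∈ I ↔ p.2 = q.2 := by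
    intro p q
    simp only [I, Finset.mem_filter, Finset.mem_univ, true_and, hR, wrc]
    split_ifs with h
    · simp only [h, iff_true, Fin.val_castLE]
      exact Nat.lt_succ_iff.mp (S.c p.1 q.1).isLt
    · simp only [h, iff_false, not_le]
      have : (T.c p.2 q.2).val ≠ 0 := fun h0 => h ((T.diag _ _).mp (Fin.ext h0))
      omega
  have hcl : ∀ p q, (univ.filter fun z => R.c p z ∈ I ∧ R.c z q ∈ I).card =
      Fintype.card X * (if R.c p q ∈ I then 1 else 0) := by
    intro p q
    simp only [hRI]
    by_cases h : p.2 = q.2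
    · rw [if_pos h, mul_one]
      have : (univ.filter fun z : X × Y => p.2 = z.2 ∧ z.2 = q.2) =
          univ ×ˢ ({p.2} : Finset Y) := by
        ext z
        simp only [Finset.mem_filter, Finset.mem_univ, true_and, Finset.mem_product,
          Finset.mem_singleton]
        constructor
        · intro h'; exact h'.1.symm
        · intro h'; exact ⟨h'.symm, h'.trans h⟩
      rw [this, Finset.card_product, Finset.card_singleton, mul_one, Finset.card_univ]
    · rw [if_neg h, mul_zero, Finset.card_eq_zero, Finset.filter_eq_empty_iff]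
      intro z _ h'
      exact h (h'.1.trans h'.2)
  have hIne : I.Nonempty := ⟨0, by simp [I]⟩
  obtain ⟨K, hKne, hK⟩ := closed_dual R hF I (Fintype.card X) hn hIne hcl
  have hK' : ∀ p q, (univ.filter fun z => R.c p z ∈ K ∧ R.c z q ∈ K).card =
      Fintype.card Y * (if R.c p q ∈ K then 1 else 0) := by
    intro p q
    have h1 := hK p q
    rw [Fintype.card_prod, mul_assoc] at h1
    exact Nat.eq_of_mul_eq_mul_left hn h1
  have row : ∀ p, (univ.filter fun z => R.c p z ∈ K).card =
      Fintype.card Y * (if (0 : Fin (d + e + 1)) ∈ K then 1 else 0) := by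
    intro p
    have h1 := hK' p p
    rw [(R.diag p p).mpr rfl] at h1
    rw [← h1]
    congr 1
    ext z
    simp only [Finset.mem_filter, Finset.mem_univ, true_and, R.symm z p, and_self]
  have h0K : (0 : Fin (d + e + 1)) ∈ K := by
    obtain ⟨k, hk⟩ := hKne
    obtain ⟨p, q, hpq⟩ := R.surj k
    by_contra h0
    have h1 := row p
    rw [if_neg h0, mul_zero, Finset.card_eq_zero, Finset.filter_eq_empty_iff] at h1
    exact h1 (Finset.mem_univ q) (by rw [hpq]; exact hk)
  have row' : ∀ p, (univ.filter fun z => R.c p z ∈ K).card = Fintype.card Y := by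
    intro p
    rw [row p, if_pos h0K, mul_one]
  have trans : ∀ p q r, R.c p q ∈ K → R.c q r ∈ K → R.c p r ∈ K := by
    intro p q r h1 h2
    by_contra h3
    have h4 := hK' p r
    rw [if_neg h3, mul_zero, Finset.card_eq_zero, Finset.filter_eq_empty_iff] at h4
    exact h4 (Finset.mem_univ q) ⟨h1, h2⟩
  have inner : ∀ x x' y, R.c (x, y) (x', y) = Fin.castLE (by omega) (S.c x x') := by
    intro x x' y
    rw [hR]; simp [wrc]
  have outer : ∀ x x' y y', y ≠ y' → R.c (x, y) (x', y') =
      ⟨d + (T.c y y').val, by have := (T.c y y').isLt; omega⟩ := by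
    intro x x' y y' h
    rw [hR]; simp [wrc, h]
  by_cases hout : ∃ p q : X × Y, p.2 ≠ q.2 ∧ R.c p q ∈ K
  · obtain ⟨p, q, hpq, hpqK⟩ := hout
    let KT : Set (Fin (e + 1)) := {j | j = 0 ∨ (⟨d + j.val, by omega⟩ : Fin (d + e + 1)) ∈ K}
    have hKT : KT = {0} ∨ KT = Set.univ := by
      apply hT KT (Or.inl rfl)
      intro a b c hab hbc
      by_cases e1 : a = b
      · rw [e1]; exact hbc
      by_cases e2 : b = c
      · rw [← e2]; exact hab
      by_cases e3 : a = c
      · left; exact (T.diag a c).mpr e3
      right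
      have k1 : (⟨d + (T.c a b).val, by omega⟩ : Fin (d + e + 1)) ∈ K := by
        rcases hab with h | h
        · exact absurd ((T.diag a b).mp h) e1
        · exact h
      have k2 : (⟨d + (T.c b c).val, by omega⟩ : Fin (d + e + 1)) ∈ K := by
        rcases hbc with h | h
        · exact absurd ((T.diag b c).mp h) e2
        · exact h
      rw [← outer x0 x0 a b e1] at k1
      rw [← outer x0 x0 b c e2] at k2
      have := trans _ _ _ k1 k2
      rw [outer x0 x0 a c e3] at this
      exact this
    have hall : KT = Set.univ := by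
      rcases hKT with h | h
      · exfalso
        have h1 : T.c p.2 q.2 ∈ KT := by
          right
          have := hpqK
          rw [show p = (p.1, p.2) from rfl, show q = (q.1, q.2) from rfl,
            outer p.1 q.1 p.2 q.2 hpq] at this
          exact this
        rw [h, Set.mem_singleton_iff, T.diag] at h1
        exact hpq h1
      · exact h
    have hout' : ∀ x x' y y', y ≠ y' → R.c (x, y) (x', y') ∈ K := by
      intro x x' y y' h
      have h1 : T.c y y' ∈ KT := by rw [hall]; trivial
      rcases h1 with h2 | h2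
      · exact absurd ((T.diag y y').mp h2) h
      · rw [outer x x' y y' h]; exact h2
    have hallK : ∀ p q : X × Y, R.c p q ∈ K := by
      rintro ⟨x, y⟩ ⟨x', y'⟩
      by_cases h : y = y'
      · subst h
        have : 1 < Fintype.card Y := by omega
        obtain ⟨y', hy'⟩ := Fintype.exists_ne_of_one_lt_card this y
        exact trans _ (x0, y') _ (hout' x x0 y y' hy'.symm) (hout' x0 x' y' y hy')
      · exact hout' x x' y y' h
    obtain ⟨y0⟩ := Fintype.card_pos_iff.mp hm
    have h1 := row' (x0, y0)
    rw [Finset.filter_true_of_mem (fun z _ => hallK _ z), Finset.card_univ,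
      Fintype.card_prod] at h1
    nlinarith
  · push Not at hout
    let KS : Set (Fin (d + 1)) := {i | (Fin.castLE (by omega) i : Fin (d + e + 1)) ∈ K}
    obtain ⟨y0⟩ := Fintype.card_pos_iff.mp hm
    have hKS : KS = {0} ∨ KS = Set.univ := by
      apply hS KS
      · exact h0K
      · intro a b c hab hbc
        have k1 : R.c (a, y0) (b, y0) ∈ K := by rw [inner]; exact hab
        have k2 : R.c (b, y0) (c, y0) ∈ K := by rw [inner]; exact hbc
        have := trans _ _ _ k1 k2
        rw [inner] at this
        exact this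
    have h1 := row' (x0, y0)
    have h2 : (univ.filter fun z : X × Y => R.c (x0, y0) z ∈ K) =
        (univ.filter fun x : X => S.c x0 x ∈ KS) ×ˢ ({y0} : Finset Y) := by
      ext ⟨x, y⟩
      simp only [Finset.mem_filter, Finset.mem_univ, true_and, Finset.mem_product,
        Finset.mem_singleton]
      constructor
      · intro h
        have hy : y = y0 := by
          by_contra hne
          exact hout (x0, y0) (x, y) (fun h' => hne h'.symm) h
        subst hy
        rw [inner] at h
        exact ⟨h, rfl⟩
      · rintro ⟨h, rfl⟩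
        rw [inner]; exact h
    rw [h2, Finset.card_product, Finset.card_singleton, mul_one] at h1
    rcases hKS with h | h
    · have : (univ.filter fun x : X => S.c x0 x ∈ KS) = {x0} := by
        ext x
        simp only [Finset.mem_filter, Finset.mem_univ, true_and, Finset.mem_singleton, h,
          Set.mem_singleton_iff, S.diag]
        exact eq_comm
      rw [this, Finset.card_singleton] at h1
      omega
    · have : (univ.filter fun x : X => S.c x0 x ∈ KS) = univ := by
        ext x
        simp [h]
      rw [this, Finset.card_univ] at h1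
      exact hXY h1

end Pool.Agent.Y649.ETR
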